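import Pool.Agent.H59.BX.BConf

set_option autoImplicit false
set_option linter.unusedSectionVars false

/-! The starting configuration is valid and an extension of the start. -/

namespace Pool.H90BX.E59

open Finset
open scoped Classical

variable {V : Type} [Fintype V] [DecidableEq V] {L : ℕ} [NeZero L]
  {l : LS V} {BadV : Finset V} {BadE : V → V → Prop} {BadT : V → Lb → Lb → Prop}
  {R : V → Lb → Lb} {d0 d1 : V → Lb} {CS : Conf V} {M : Finset (Fin L → V)}

theorem fl_fl (x : V × Bool) : fl (fl x) = x := by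
  simp [fl]

theorem out_of_bad (hc : ∀ P ∈ M, Clean l BadV BadE BadT P) {v : V} (hv : v ∈ BadV) :
    ¬ InB M v := by
  rintro ⟨⟨P, a⟩, h1, h2, h3⟩
  exact (hc P h1).vert _ (by rw [show P (Fin.ofNat L a) = v from h3]; exact hv)

theorem Start.sg_bad (hS : Start l BadV d0 d1 CS) {x : V × Bool} (hx : CS.sg x ≠ x) :
    x.1 ∈ BadV ∧ (CS.sg x).1 ∈ BadV := by
  constructor
  · by_contra h
    exact hx (hS.out x h)
  · by_contra h
    have h1 := hS.out _ h
    rw [hS.ok.inv] at h1
    exact hx h1.symm

theorem bconf_ok (hL : 4 ≤ L) (hM : Fam M) (hc : ∀ P ∈ M, Clean l BadV BadE BadT P)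
    (hR : ∀ v i, R v i ≠ i) (hS : Start l BadV d0 d1 CS) : (bconf l R CS M).Ok l := by
  have hne : ∀ P ∈ M, ∀ a, a + 1 < L → pt P (a + 1) ≠ pt P a := by
    intro P hP a ha h
    have := pt_inj (hM.inj P hP) ha (show a < L by omega) h
    omega
  -- the labels at the two slots of a vertex are different
  have hlab : ∀ v, (bconf l R CS M).lab (v, false) ≠ (bconf l R CS M).lab (v, true) := by
    intro v
    rcases slot_cases (M := M) (show 2 ≤ L by omega) (v, true) with h | ⟨P, hP, a, ha, hx⟩ |
      ⟨P, hP, a, ha, hx⟩ | ⟨P, hP, a, ha, hx⟩ | ⟨P, hP, hx⟩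
    · rw [lab_out (show ¬ InB M (v, true).1 from h), lab_out (show ¬ InB M (v, false).1 from h)]
      exact hS.ok.lab_ne (v, false)
    · have hv : v = pt P a := congrArg Prod.fst hx
      subst hv
      rw [lab_true hM hP ha]
      rcases Nat.eq_zero_or_pos a with h4 | h4
      · subst h4
        rw [lab_first hM hP]
        exact hR _ _
      · obtain ⟨b, rfl⟩ : ∃ b, a = b + 1 := ⟨a - 1, by omega⟩
        rw [lab_false hM hP (by omega)]
        exact (hc P hP).comp b (by omega)
    · have := congrArg Prod.snd hx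
      simp at this
    · have hv : v = pt P (a + 1) := congrArg Prod.fst hx
      subst hv
      rw [lab_last hM hP ha, lab_false hM hP (by omega)]
      exact (hR _ _).symm
    · have := congrArg Prod.snd hx
      simp at this
  refine ⟨fun x => ?_, fun x => ?_, fun x hx => ?_, fun x hx => ?_⟩
  · rcases slot_cases (M := M) (show 2 ≤ L by omega) x with h | ⟨P, hP, a, ha, rfl⟩ |
      ⟨P, hP, a, ha, rfl⟩ | ⟨P, hP, a, ha, rfl⟩ | ⟨P, hP, rfl⟩
    · rw [sg_out h]
      by_cases h1 : CS.sg x = x
      · rw [h1, sg_out h, h1]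
      · rw [sg_out (out_of_bad hc (Start.sg_bad hS h1).2), hS.ok.inv]
    · rw [sg_true hM hP ha, sg_false hM hP ha]
    · rw [sg_false hM hP ha, sg_true hM hP ha]
    · rw [sg_last hM hP (by omega), sg_last hM hP (by omega)]
    · rw [sg_first hM hP, sg_first hM hP]
  · obtain ⟨v, i⟩ := x
    cases i
    · exact hlab v
    · exact (hlab v).symm
  · rcases slot_cases (M := M) (show 2 ≤ L by omega) x with h | ⟨P, hP, a, ha, rfl⟩ |
      ⟨P, hP, a, ha, rfl⟩ | ⟨P, hP, a, ha, rfl⟩ | ⟨P, hP, rfl⟩
    · rw [sg_out h] at hx ⊢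
      exact hS.ok.ne x hx
    · rw [sg_true hM hP ha]
      exact hne P hP a ha
    · rw [sg_false hM hP ha]
      exact (hne P hP a ha).symm
    · exact absurd (sg_last hM hP (by omega)) hx
    · exact absurd (sg_first hM hP) hx
  · rcases slot_cases (M := M) (show 2 ≤ L by omega) x with h | ⟨P, hP, a, ha, rfl⟩ |
      ⟨P, hP, a, ha, rfl⟩ | ⟨P, hP, a, ha, rfl⟩ | ⟨P, hP, rfl⟩
    · rw [sg_out h] at hx ⊢
      rw [lab_out h]
      exact hS.ok.lab_eq x hx
    · rw [sg_true hM hP ha, lab_true hM hP ha]
    · rw [sg_false hM hP ha, lab_false hM hP ha]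
    · exact absurd (sg_last hM hP (by omega)) hx
    · exact absurd (sg_first hM hP) hx

theorem bconf_ext (hL : 4 ≤ L) (hM : Fam M) (hc : ∀ P ∈ M, Clean l BadV BadE BadT P)
    (hE : ∀ v w, BadE v w → BadE w v) (hT : ∀ v i j, BadT v i j → BadT v j i)
    (hR : ∀ v i, R v i ≠ i) (hS : Start l BadV d0 d1 CS) :
    Ext l BadV BadE BadT R CS (bconf l R CS M) := by
  refine ⟨bconf_ok hL hM hc hR hS, fun x hx => ?_, fun x hx h => ?_, fun x hx h h' => ?_,
    fun x hx h h' => ?_, fun x hx h h' => ?_⟩
  · have h := out_of_bad hc hx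
    exact ⟨sg_out h, lab_out h⟩
  · rcases slot_cases (M := M) (show 2 ≤ L by omega) x with h1 | ⟨P, hP, a, ha, rfl⟩ |
      ⟨P, hP, a, ha, rfl⟩ | ⟨P, hP, a, ha, rfl⟩ | ⟨P, hP, rfl⟩
    · rw [sg_out h1] at h
      exact absurd (hS.out x hx) h
    · rw [sg_true hM hP ha]
      exact (hc P hP).edge a ha
    · rw [sg_false hM hP ha]
      exact fun h2 => (hc P hP).edge a ha (hE _ _ h2)
    · exact absurd (sg_last hM hP (by omega)) h
    · exact absurd (sg_first hM hP) h
  · rcases slot_cases (M := M) (show 2 ≤ L by omega) x with h1 | ⟨P, hP, a, ha, rfl⟩ |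
      ⟨P, hP, a, ha, rfl⟩ | ⟨P, hP, a, ha, rfl⟩ | ⟨P, hP, rfl⟩
    · rw [sg_out h1] at h
      exact absurd (hS.out x hx) h
    · rcases Nat.eq_zero_or_pos a with h4 | h4
      · subst h4
        exact absurd (sg_first hM hP) h'
      · obtain ⟨b, rfl⟩ : ∃ b, a = b + 1 := ⟨a - 1, by omega⟩
        rw [lab_true hM hP ha, show fl (pt P (b + 1), true) = (pt P (b + 1), false) from rfl,
          lab_false hM hP (by omega)]
        exact fun h2 => (hc P hP).trans b (by omega) (hT _ _ _ h2)
    · rw [lab_false hM hP ha, show fl (pt P (a + 1), false) = (pt P (a + 1), true) from rfl]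
      rcases Nat.lt_or_ge (a + 1 + 1) L with h4 | h4
      · rw [lab_true hM hP h4]
        exact (hc P hP).trans a h4
      · exact absurd (sg_last hM hP (show a + 1 + 1 = L by omega)) h'
    · exact absurd (sg_last hM hP (by omega)) h
    · exact absurd (sg_first hM hP) h
  · rcases slot_cases (M := M) (show 2 ≤ L by omega) x with h1 | ⟨P, hP, a, ha, rfl⟩ |
      ⟨P, hP, a, ha, rfl⟩ | ⟨P, hP, a, ha, rfl⟩ | ⟨P, hP, rfl⟩
    · rw [sg_out (show ¬ InB M (fl x).1 from h1)] at h'
      exact absurd (hS.out (fl x) hx) h'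
    · rw [sg_true hM hP ha] at h
      have := congrArg Prod.snd h
      simp at this
    · rw [sg_false hM hP ha] at h
      have := congrArg Prod.snd h
      simp at this
    · rw [lab_last hM hP ha, show fl (pt P (a + 1), true) = (pt P (a + 1), false) from rfl,
        lab_false hM hP (by omega)]
    · rw [lab_first hM hP, show fl (pt P 0, false) = (pt P 0, true) from rfl,
        lab_true hM hP (by omega)]
  · rcases slot_cases (M := M) (show 2 ≤ L by omega) x with h1 | ⟨P, hP, a, ha, rfl⟩ |
      ⟨P, hP, a, ha, rfl⟩ | ⟨P, hP, a, ha, rfl⟩ | ⟨P, hP, rfl⟩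
    · exact lab_out h1
    · rw [sg_true hM hP ha] at h
      have := congrArg Prod.snd h
      simp at this
    · rw [sg_false hM hP ha] at h
      have := congrArg Prod.snd h
      simp at this
    · rw [show fl (pt P (a + 1), true) = (pt P (a + 1), false) from rfl,
        sg_false hM hP (by omega)] at h'
      have := congrArg Prod.snd h'
      simp at this
    · rw [show fl (pt P 0, false) = (pt P 0, true) from rfl, sg_true hM hP (by omega)] at h'
      have := congrArg Prod.snd h'
      simp at this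

/-- every vertex reaches a token -/
theorem bconf_reach (hM : Fam M) (hc : ∀ P ∈ M, Clean l BadV BadE BadT P)
    (hS : Start l BadV d0 d1 CS) (v : V) :
    ∃ w, Relation.ReflTransGen (bconf l R CS M).adj v w ∧
      ∃ b, (bconf l R CS M).sg (w, b) = (w, b) := by
  by_cases h : InB M v
  · obtain ⟨⟨P, a⟩, h1, h2, h3⟩ := h
    simp only at h1 h2 h3
    subst h3
    refine ⟨pt P 0, ?_, false, sg_first hM h1⟩
    induction a with
    | zero => exact Relation.ReflTransGen.refl
    | succ a ih =>
      refine Relation.ReflTransGen.head ⟨false, ?_, ?_⟩ (ih (by omega))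
      · rw [sg_false hM h1 h2]
        intro h3
        have := congrArg Prod.snd h3
        simp at this
      · rw [sg_false hM h1 h2]
  · by_cases hv : v ∈ BadV
    · obtain ⟨w, hw, b, hb⟩ := hS.tok v hv
      have key : ∀ u, Relation.ReflTransGen CS.adj v u →
          u ∈ BadV ∧ Relation.ReflTransGen (bconf l R CS M).adj v u := by
        intro u hu
        induction hu with
        | refl => exact ⟨hv, Relation.ReflTransGen.refl⟩
        | tail _ hbc ih =>
          rename_i y z _
          obtain ⟨c, hc1, hc2⟩ := hbc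
          have h4 := Start.sg_bad hS hc1
          refine ⟨by rw [← hc2]; exact h4.2, ih.2.tail ⟨c, ?_, ?_⟩⟩
          · rw [sg_out (show ¬ InB M (y, c).1 from out_of_bad hc h4.1)]
            exact hc1
          · rw [sg_out (show ¬ InB M (y, c).1 from out_of_bad hc h4.1)]
            exact hc2
      obtain ⟨h4, h5⟩ := key w hw
      refine ⟨w, h5, b, ?_⟩
      rw [sg_out (show ¬ InB M (w, b).1 from out_of_bad hc h4)]
      exact hb
    · refine ⟨v, Relation.ReflTransGen.refl, false, ?_⟩
      rw [sg_out (show ¬ InB M (v, false).1 from h)]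
      exact hS.out _ hv

end Pool.H90BX.E59
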