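import Pool.Agent.H59.BX.BConf

set_option autoImplicit false
set_option linter.unusedSectionVars false

/-! The number of tokens of the starting configuration. -/

namespace Pool.H90BX.E59

open Finset
open scoped Classical

variable {V : Type} [Fintype V] [DecidableEq V] {L : ℕ} [NeZero L]
  {l : LS V} {R : V → Lb → Lb} {CS : Conf V} {M : Finset (Fin L → V)}

theorem pt_val (P : Fin L → V) (a : Fin L) : pt P a.1 = P a := by
  unfold pt
  congr 1
  apply Fin.ext
  simp [Fin.ofNat, Nat.mod_eq_of_lt a.2]

theorem card_inB (hM : Fam M) : (univ.filter fun v : V => InB M v).card = L * M.card := by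
  have h1 : (univ.filter fun v : V => InB M v) =
      (M ×ˢ (univ : Finset (Fin L))).image fun q => q.1 q.2 := by
    ext v
    simp only [Finset.mem_filter, Finset.mem_univ, true_and, Finset.mem_image,
      Finset.mem_product, and_true]
    constructor
    · rintro ⟨⟨P, a⟩, h1, h2, h3⟩
      exact ⟨(P, ⟨a, h2⟩), h1, (pt_val P ⟨a, h2⟩).symm.trans h3⟩
    · rintro ⟨⟨P, a⟩, h1, h3⟩
      exact ⟨(P, a.1), h1, a.2, by rw [pt_val]; exact h3⟩
  rw [h1, Finset.card_image_of_injOn, Finset.card_product, Finset.card_univ, Fintype.card_fin,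
    mul_comm]
  rintro ⟨P, a⟩ hP ⟨P', a'⟩ hP' he
  simp only [Finset.coe_product, Set.mem_prod, Finset.mem_coe] at hP hP'
  simp only at he
  by_cases h2 : P = P'
  · subst h2
    rw [hM.inj P hP.1 he]
  · exact absurd he (hM.disj P hP.1 P' hP'.1 h2 a a')

theorem card_tok (hL : 2 ≤ L) (hM : Fam M) :
    (univ.filter fun a => (bconf l R CS M).sg a = a).card + 2 * (L * M.card) ≤
      2 * Fintype.card V + 2 * M.card := by
  have h1 : (univ.filter fun a => (bconf l R CS M).sg a = a) ⊆
      ((univ.filter fun v : V => ¬ InB M v) ×ˢ (univ : Finset Bool)) ∪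
        (M.image (fun P => (pt P 0, false)) ∪ M.image (fun P => (pt P (L - 1), true))) := by
    intro x hx
    rw [Finset.mem_filter] at hx
    have hx := hx.2
    rw [Finset.mem_union, Finset.mem_union]
    rcases slot_cases (M := M) hL x with h1 | ⟨P, hP, a, ha, rfl⟩ |
      ⟨P, hP, a, ha, rfl⟩ | ⟨P, hP, a, ha, rfl⟩ | ⟨P, hP, rfl⟩
    · left
      rw [Finset.mem_product, Finset.mem_filter]
      exact ⟨⟨Finset.mem_univ _, h1⟩, Finset.mem_univ _⟩
    · rw [sg_true hM hP ha] at hx
      have := congrArg Prod.snd hx
      simp at this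
    · rw [sg_false hM hP ha] at hx
      have := congrArg Prod.snd hx
      simp at this
    · right
      right
      rw [Finset.mem_image]
      exact ⟨P, hP, by rw [show L - 1 = a + 1 by omega]⟩
    · right
      left
      rw [Finset.mem_image]
      exact ⟨P, hP, rfl⟩
  have h2 := Finset.card_le_card h1
  have h3 := Finset.card_union_le ((univ.filter fun v : V => ¬ InB M v) ×ˢ (univ : Finset Bool))
    (M.image (fun P => (pt P 0, false)) ∪ M.image (fun P => (pt P (L - 1), true)))
  have h4 := Finset.card_union_le (M.image (fun P => (pt P 0, false)))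
    (M.image (fun P => (pt P (L - 1), true)))
  have h5 : (M.image (fun P => (pt P 0, false))).card ≤ M.card := Finset.card_image_le
  have h6 : (M.image (fun P => (pt P (L - 1), true))).card ≤ M.card := Finset.card_image_le
  have h7 : ((univ.filter fun v : V => ¬ InB M v) ×ˢ (univ : Finset Bool)).card =
      (univ.filter fun v : V => ¬ InB M v).card * 2 := by
    rw [Finset.card_product, Finset.card_univ, Fintype.card_bool]
  have h8 : (univ.filter fun v : V => InB M v).card +
      (univ.filter fun v : V => ¬ InB M v).card = Fintype.card V := by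
    rw [← Finset.card_univ]
    exact Finset.card_filter_add_card_filter_not _
  have h9 := card_inB hM
  omega

end Pool.H90BX.E59
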