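import Pool.Agent.H90.BX.Defs

set_option autoImplicit false
set_option linter.unusedSectionVars false

/-! `W` is the push forward of `mu4` to pairs of states. -/

namespace Pool.H90BX.E59

open Finset
open scoped Classical

variable {V : Type} [Fintype V] [DecidableEq V]

theorem cnt_sum (l : LS V) (v : V) :
    cnt l v 0 + cnt l v 1 + cnt l v 2 + cnt l v 3 + 1 = Fintype.card V := by
  have h1 : (univ.erase v : Finset V) =
      ((cls l v 0 ∪ cls l v 1) ∪ cls l v 2) ∪ cls l v 3 := by
    ext w
    simp only [cls, Finset.mem_erase, Finset.mem_univ, and_true, Finset.mem_union,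
      Finset.mem_filter, true_and]
    constructor
    · intro h
      have : ∀ x : Lb, x = 0 ∨ x = 1 ∨ x = 2 ∨ x = 3 := by decide
      rcases this (l v w) with h2 | h2 | h2 | h2
      · exact Or.inl (Or.inl (Or.inl ⟨h, h2⟩))
      · exact Or.inl (Or.inl (Or.inr ⟨h, h2⟩))
      · exact Or.inl (Or.inr ⟨h, h2⟩)
      · exact Or.inr ⟨h, h2⟩
    · rintro (((h | h) | h) | h) <;> exact h.1
  have hd : ∀ i j : Lb, i ≠ j → Disjoint (cls l v i) (cls l v j) := by
    intro i j hij
    rw [Finset.disjoint_left]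
    intro w h2 h3
    simp only [cls, Finset.mem_filter, Finset.mem_univ, true_and] at h2 h3
    exact hij (h2.2.symm.trans h3.2)
  have h2 : (univ.erase v : Finset V).card + 1 = Fintype.card V :=
    Finset.card_erase_add_one (Finset.mem_univ v)
  rw [h1, Finset.card_union_of_disjoint, Finset.card_union_of_disjoint,
    Finset.card_union_of_disjoint (hd 0 1 (by decide))] at h2
  · exact h2
  · rw [Finset.disjoint_union_left]
    exact ⟨hd 0 2 (by decide), hd 1 2 (by decide)⟩
  · rw [Finset.disjoint_union_left, Finset.disjoint_union_left]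
    exact ⟨⟨hd 0 3 (by decide), hd 1 3 (by decide)⟩, hd 2 3 (by decide)⟩

theorem third_comm (i j : Lb) : third i j = third j i := by
  unfold third
  exact sub_right_comm 3 i j

theorem mm_symm (l : LS V) (v : V) (i j : Lb) : mm l v i j = mm l v j i := by
  unfold mm
  by_cases h : i = j
  · rw [if_pos h, if_pos h.symm]
  · rw [if_neg h, if_neg (Ne.symm h), third_comm i j]
    by_cases h2 : T4 l v
    · rw [if_pos h2, if_pos h2]
    · rw [if_neg h2, if_neg h2]
      by_cases h3 : i = 3 ∨ j = 3
      · rw [if_pos h3, if_pos h3.symm]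
      · rw [if_neg h3, if_neg (fun h4 => h3 (Or.symm h4))]

theorem mm_zero {l : LS V} (hl : Bdd l) (v : V) (i j : Lb) (hi : cnt l v i = 0) :
    mm l v j i = 0 := by
  obtain ⟨hn, hv⟩ := hl
  have h4 : ¬ T4 l v := by
    intro h
    have := h i
    omega
  have h3 := (hv v).resolve_right h4
  have h0 := h3.2 0
  have h1 := h3.2 1
  have h2 := h3.2 2
  have hs := cnt_sum l v
  have hz := h3.1
  have hi3 : i = 3 := by
    have : ∀ x : Lb, x = 0 ∨ x = 1 ∨ x = 2 ∨ x = 3 := by decide
    rcases this i with rfl | rfl | rfl | rfl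
    · omega
    · omega
    · omega
    · rfl
  unfold mm
  by_cases h : j = i
  · rw [if_pos h]
  · rw [if_neg h, if_neg h4, if_pos (Or.inr hi3)]

theorem NN_nonneg {l : LS V} (hl : Bdd l) : 0 ≤ NN V := by
  have : (3 : ℝ) ≤ (Fintype.card V : ℝ) := by exact_mod_cast hl.1
  unfold NN
  linarith

theorem mm_nonneg {l : LS V} (hl : Bdd l) (v : V) (i j : Lb) : 0 ≤ mm l v i j := by
  have hN := NN_nonneg hl
  unfold mm
  by_cases h : i = j
  · rw [if_pos h]
  · rw [if_neg h]
    by_cases h4 : T4 l v
    · rw [if_pos h4]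
      positivity
    · rw [if_neg h4]
      by_cases h3 : i = 3 ∨ j = 3
      · rw [if_pos h3]
      · rw [if_neg h3]
        have h5 := ((hl.2 v).resolve_right h4).2 (third i j)
        have h6 : (2 * (cnt l v (third i j) : ℝ) + 2) ≤ (Fintype.card V : ℝ) := by
          exact_mod_cast h5
        unfold NN
        linarith

theorem Q_nonneg {l : LS V} (hl : Bdd l) (v x y : V) : 0 ≤ Q l v x y := by
  have h := mm_nonneg hl v (l v x) (l v y)
  unfold Q
  by_cases h2 : x ≠ v ∧ y ≠ v
  · rw [if_pos h2]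
    positivity
  · rw [if_neg h2]

theorem mu4_nonneg {l : LS V} (hl : Bdd l) (a b c d : V) : 0 ≤ mu4 l a b c d := by
  have h1 := Q_nonneg hl b a c
  have h2 := Q_nonneg hl c b d
  have h3 := NN_nonneg hl
  have h4 : 0 ≤ nn V := by
    unfold nn
    positivity
  unfold mu4
  by_cases h : b ≠ c
  · rw [if_pos h]
    positivity
  · rw [if_neg h]
    simp

/-- the sum over one label class of the transition weights -/
theorem sum_Q {l : LS V} (hl : Bdd l) (b c : V) (hbc : b ≠ c) (i : Lb) :
    ∑ a, (if l b a = i then Q l b a c else 0) = tr l b (l b c) i := by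
  have h1 : ∀ a, (if l b a = i then Q l b a c else 0) =
      if a ∈ cls l b i then mm l b i (l b c) / (cnt l b i * cnt l b (l b c)) else 0 := by
    intro a
    by_cases h2 : l b a = i
    · rw [if_pos h2]
      unfold Q
      by_cases h3 : a = b
      · rw [if_neg, if_neg]
        · simp [cls, h3]
        · rintro ⟨h4, _⟩
          exact h4 h3
      · rw [if_pos ⟨h3, hbc.symm⟩, if_pos]
        · rw [h2]
        · simp [cls, h3, h2]
    · rw [if_neg h2, if_neg]
      simp [cls, h2]
  rw [Finset.sum_congr rfl fun a _ => h1 a, ← Finset.sum_filter, Finset.sum_const, nsmul_eq_mul]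
  have h2 : (univ.filter fun a => a ∈ cls l b i) = cls l b i := by
    ext a
    simp
  rw [h2]
  show (cnt l b i : ℝ) * _ = mm l b (l b c) i / cnt l b (l b c)
  by_cases h3 : cnt l b i = 0
  · rw [h3, mm_zero hl b i _ h3]
    simp
  · have h3' : (cnt l b i : ℝ) ≠ 0 := by exact_mod_cast h3
    rw [mm_symm l b (l b c) i]
    rw [mul_div_assoc', mul_comm (cnt l b i : ℝ) (mm l b i (l b c)),
      mul_comm (cnt l b i : ℝ) (cnt l b (l b c) : ℝ), mul_div_mul_right _ _ h3']

theorem Q_symm (l : LS V) (v x y : V) : Q l v x y = Q l v y x := by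
  unfold Q
  by_cases h : x ≠ v ∧ y ≠ v
  · rw [if_pos h, if_pos ⟨h.2, h.1⟩, mm_symm]
    congr 1
    ring
  · rw [if_neg h, if_neg]
    rintro ⟨h1, h2⟩
    exact h ⟨h2, h1⟩

theorem W_push {l : LS V} (hl : Bdd l) (b c : V) (i j : Lb) :
    W l (b, i) (c, j) =
      ∑ a, ∑ d, if l b a = i ∧ l c d = j then mu4 l a b c d else 0 := by
  unfold W
  by_cases hbc : b = c
  · rw [if_neg (by simpa using hbc)]
    symm
    refine Finset.sum_eq_zero fun a _ => Finset.sum_eq_zero fun d _ => ?_
    unfold mu4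
    simp [hbc]
  · rw [if_pos (show ((b, i) : St V).1 ≠ ((c, j) : St V).1 from hbc)]
    show 1 / (nn V * NN V) * (tr l b (l b c) i * tr l c (l c b) j) = _
    rw [← sum_Q hl b c hbc i, ← sum_Q hl c b (Ne.symm hbc) j, Finset.sum_mul_sum, Finset.mul_sum]
    refine Finset.sum_congr rfl fun a _ => ?_
    rw [Finset.mul_sum]
    refine Finset.sum_congr rfl fun d _ => ?_
    unfold mu4
    rw [if_pos hbc, Q_symm l c b d]
    by_cases h1 : l b a = i <;> by_cases h2 : l c d = j
    · rw [if_pos h1, if_pos h2, if_pos ⟨h1, h2⟩]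
      ring
    · rw [if_neg h2, if_neg (show ¬ (l b a = i ∧ l c d = j) from fun h => h2 h.2)]
      ring
    · rw [if_neg h1, if_neg (show ¬ (l b a = i ∧ l c d = j) from fun h => h1 h.1)]
      ring
    · rw [if_neg h1, if_neg (show ¬ (l b a = i ∧ l c d = j) from fun h => h1 h.1)]
      ring

/-- mass of a relation between states -/
theorem rel_push {l : LS V} (hl : Bdd l) (A : St V → St V → Prop) :
    ∑ y, ∑ y', (if A y y' then W l y y' else 0) =
      ∑ a, ∑ b, ∑ c, ∑ d, if A (b, l b a) (c, l c d) then mu4 l a b c d else 0 := by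
  have h1 : ∀ b c, ∑ i, ∑ j, (if A (b, i) (c, j) then W l (b, i) (c, j) else 0) =
      ∑ a, ∑ d, if A (b, l b a) (c, l c d) then mu4 l a b c d else 0 := by
    intro b c
    have h2 : ∀ i j, (if A (b, i) (c, j) then W l (b, i) (c, j) else 0) =
        ∑ a, ∑ d, if (A (b, i) (c, j) ∧ l b a = i ∧ l c d = j) then mu4 l a b c d else 0 := by
      intro i j
      by_cases h3 : A (b, i) (c, j)
      · rw [if_pos h3, W_push hl]
        refine Finset.sum_congr rfl fun a _ => Finset.sum_congr rfl fun d _ => ?_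
        by_cases h4 : l b a = i ∧ l c d = j
        · rw [if_pos h4, if_pos ⟨h3, h4⟩]
        · rw [if_neg h4, if_neg (fun h => h4 h.2)]
      · rw [if_neg h3]
        symm
        refine Finset.sum_eq_zero fun a _ => Finset.sum_eq_zero fun d _ => ?_
        rw [if_neg (fun h => h3 h.1)]
    rw [Finset.sum_congr rfl fun i _ => Finset.sum_congr rfl fun j _ => h2 i j]
    have h3 : ∀ i, ∑ j, ∑ a, ∑ d, (if (A (b, i) (c, j) ∧ l b a = i ∧ l c d = j) then
        mu4 l a b c d else 0) = ∑ a, ∑ d, ∑ j, (if (A (b, i) (c, j) ∧ l b a = i ∧ l c d = j) then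
        mu4 l a b c d else 0) := by
      intro i
      rw [Finset.sum_comm]
      exact Finset.sum_congr rfl fun a _ => Finset.sum_comm
    rw [Finset.sum_congr rfl fun i _ => h3 i, Finset.sum_comm]
    refine Finset.sum_congr rfl fun a _ => ?_
    rw [Finset.sum_comm]
    refine Finset.sum_congr rfl fun d _ => ?_
    rw [Finset.sum_eq_single (l b a), Finset.sum_eq_single (l c d)]
    · by_cases h4 : A (b, l b a) (c, l c d)
      · rw [if_pos ⟨h4, rfl, rfl⟩, if_pos h4]
      · rw [if_neg (fun h => h4 h.1), if_neg h4]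
    · intro j _ hj
      rw [if_neg (fun h => hj h.2.2.symm)]
    · intro h
      exact absurd (Finset.mem_univ _) h
    · intro i _ hi
      refine Finset.sum_eq_zero fun j _ => ?_
      rw [if_neg (fun h => hi h.2.1.symm)]
    · intro h
      exact absurd (Finset.mem_univ _) h
  calc ∑ y, ∑ y', (if A y y' then W l y y' else 0)
      = ∑ b, ∑ i, ∑ c, ∑ j, (if A (b, i) (c, j) then W l (b, i) (c, j) else 0) := by
        rw [Fintype.sum_prod_type]
        refine Finset.sum_congr rfl fun b _ => Finset.sum_congr rfl fun i _ => ?_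
        rw [Fintype.sum_prod_type]
    _ = ∑ b, ∑ c, ∑ i, ∑ j, (if A (b, i) (c, j) then W l (b, i) (c, j) else 0) :=
        Finset.sum_congr rfl fun b _ => Finset.sum_comm
    _ = ∑ b, ∑ c, ∑ a, ∑ d, (if A (b, l b a) (c, l c d) then mu4 l a b c d else 0) :=
        Finset.sum_congr rfl fun b _ => Finset.sum_congr rfl fun c _ => h1 b c
    _ = ∑ b, ∑ a, ∑ c, ∑ d, (if A (b, l b a) (c, l c d) then mu4 l a b c d else 0) :=
        Finset.sum_congr rfl fun b _ => Finset.sum_comm
    _ = _ := Finset.sum_comm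

theorem ite_inst (p : Prop) (i1 i2 : Decidable p) (x y : ℝ) :
    @ite ℝ p i1 x y = @ite ℝ p i2 x y := by
  congr

/-- mass in terms of `mu4` -/
theorem mass_push {l : LS V} (hl : Bdd l) (P P' : St V → Prop) :
    mass l P P' =
      ∑ a, ∑ b, ∑ c, ∑ d, if P (b, l b a) ∧ P' (c, l c d) then mu4 l a b c d else 0 := by
  unfold mass
  refine Eq.trans ?_ ((rel_push hl (fun y y' => P y ∧ P' y')).trans ?_)
  · exact Finset.sum_congr rfl fun y _ => Finset.sum_congr rfl fun y' _ => ite_inst _ _ _ _ _
  · exact Finset.sum_congr rfl fun a _ => Finset.sum_congr rfl fun b _ =>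
      Finset.sum_congr rfl fun c _ => Finset.sum_congr rfl fun d _ => ite_inst _ _ _ _ _

end Pool.H90BX.E59
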