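import Pool.Agent.H59.BX.BConf

set_option autoImplicit false
set_option linter.unusedSectionVars false

/-! Counting windows and blocks of the bulk. -/

namespace Pool.H90BX.E59

open Finset
open scoped Classical

variable {V : Type} [Fintype V] [DecidableEq V] {L : ℕ} [NeZero L] {M : Finset (Fin L → V)}

theorem sum_ite_card {α β : Type} (s : Finset α) (t : Finset β) (B : α → β → Prop) :
    ∑ a ∈ s, ∑ b ∈ t, (if B a b then (1 : ℝ) else 0) =
      (((s ×ˢ t).filter fun q => B q.1 q.2).card : ℝ) := by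
  rw [Finset.card_filter, Finset.sum_product]
  push_cast
  rfl

theorem pick_count (hM : Fam M) (B : (Fin L → V) → ℕ → Prop) (m : ℕ)
    (h : 2 * (m : ℝ) < ∑ P ∈ M, ∑ a ∈ range (L - 3), (if B P a then (1 : ℝ) else 0))
    (T : Finset V) (hT : T.card ≤ m) :
    ∃ P ∈ M, ∃ a, a + 4 ≤ L ∧ B P a ∧ pt P (a + 1) ∉ T ∧ pt P (a + 2) ∉ T := by
  rw [sum_ite_card] at h
  have h' : 2 * m < ((M ×ˢ range (L - 3)).filter fun q => B q.1 q.2).card := by exact_mod_cast h
  by_contra hcon
  push Not at hcon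
  have key : ∀ c : ℕ, c ≤ 2 →
      (((M ×ˢ range (L - 3)).filter fun q => pt q.1 (q.2 + c) ∈ T).card) ≤ T.card := by
    intro c hc
    refine Finset.card_le_card_of_injOn (fun q => pt q.1 (q.2 + c)) ?_ ?_
    · intro q hq
      exact (Finset.mem_filter.mp (Finset.mem_coe.mp hq)).2
    · intro q hq q' hq' he
      have h1 := Finset.mem_product.mp (Finset.mem_filter.mp (Finset.mem_coe.mp hq)).1
      have h2 := Finset.mem_product.mp (Finset.mem_filter.mp (Finset.mem_coe.mp hq')).1
      have h3 := Finset.mem_range.mp h1.2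
      have h4 := Finset.mem_range.mp h2.2
      obtain ⟨e1, e2⟩ := hM.uniq h1.1 h2.1 (show q.2 + c < L by omega)
        (show q'.2 + c < L by omega) he
      exact Prod.ext e1 (by omega)
  have hsub : ((M ×ˢ range (L - 3)).filter fun q => B q.1 q.2) ⊆
      ((M ×ˢ range (L - 3)).filter fun q => pt q.1 (q.2 + 1) ∈ T) ∪
      ((M ×ˢ range (L - 3)).filter fun q => pt q.1 (q.2 + 2) ∈ T) := by
    intro q hq
    rw [Finset.mem_filter] at hq
    have h1 := Finset.mem_product.mp hq.1
    have h2 := Finset.mem_range.mp h1.2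
    rw [Finset.mem_union, Finset.mem_filter, Finset.mem_filter]
    by_cases h3 : pt q.1 (q.2 + 1) ∈ T
    · exact Or.inl ⟨hq.1, h3⟩
    · exact Or.inr ⟨hq.1, hcon q.1 h1.1 q.2 (by omega) hq.2 h3⟩
  have h1 := Finset.card_le_card hsub
  have h2 := Finset.card_union_le
    ((M ×ˢ range (L - 3)).filter fun q => pt q.1 (q.2 + 1) ∈ T)
    ((M ×ˢ range (L - 3)).filter fun q => pt q.1 (q.2 + 2) ∈ T)
  have h3 := key 1 (by omega)
  have h4 := key 2 (by omega)
  omega

theorem block_inj (hM : Fam M) {L0 b : ℕ} (hLb : L = b * L0) {P P' : Fin L → V} (hP : P ∈ M)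
    (hP' : P' ∈ M) {j j' c c' : ℕ} (hj : j < b) (hj' : j' < b) (hc : c < L0) (hc' : c' < L0)
    (he : pt P (j * L0 + c) = pt P' (j' * L0 + c')) : P = P' ∧ j = j' ∧ c = c' := by
  have hlt : ∀ j c, j < b → c < L0 → j * L0 + c < L := by
    intro j c hj hc
    have : (j + 1) * L0 ≤ b * L0 := Nat.mul_le_mul_right _ hj
    rw [Nat.add_mul, Nat.one_mul] at this
    omega
  obtain ⟨e1, e2⟩ := hM.uniq hP hP' (hlt j c hj hc) (hlt j' c' hj' hc') he
  refine ⟨e1, ?_⟩
  have h1 : j = j' := by
    have h2 : (j * L0 + c) / L0 = j := by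
      rw [mul_comm, Nat.mul_add_div (by omega), Nat.div_eq_of_lt hc, add_zero]
    have h3 : (j' * L0 + c') / L0 = j' := by
      rw [mul_comm, Nat.mul_add_div (by omega), Nat.div_eq_of_lt hc', add_zero]
    rw [← h2, ← h3, e2]
  subst h1
  exact ⟨rfl, by omega⟩

/-- a block hits `A` -/
def Hit (A : V → V → V → V → Prop) (L0 : ℕ) (P : Fin L → V) (j : ℕ) : Prop :=
  ∃ p, p + 4 ≤ L0 ∧ A (pt P (j * L0 + p)) (pt P (j * L0 + (p + 1))) (pt P (j * L0 + (p + 2)))
    (pt P (j * L0 + (p + 3)))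

theorem merge_count (hM : Fam M) {L0 b : ℕ} (hL0 : 4 ≤ L0) (hLb : L = b * L0)
    (A : V → V → V → V → Prop) (m : ℕ)
    (h : (m : ℝ) + nn V / (2 * L0) <
      ∑ P ∈ M, ∑ j ∈ range b, (if Hit A L0 P j then (1 : ℝ) else 0))
    (X T : Finset V) (hT : T.card ≤ m) (hX : 2 * X.card ≤ Fintype.card V)
    (hcl : ∀ P ∈ M, ∀ a, a + 1 < L → (pt P a ∈ X → pt P a ∉ T → pt P (a + 1) ∈ X) ∧
      (pt P (a + 1) ∈ X → pt P (a + 1) ∉ T → pt P a ∈ X)) :
    ∃ P ∈ M, ∃ a, a + 4 ≤ L ∧ A (pt P a) (pt P (a + 1)) (pt P (a + 2)) (pt P (a + 3)) ∧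
      pt P (a + 1) ∉ T ∧ pt P (a + 2) ∉ T ∧ pt P (a + 1) ∉ X := by
  rw [sum_ite_card] at h
  by_contra hcon
  push Not at hcon
  have hlt : ∀ j c, j < b → c < L0 → j * L0 + c < L := by
    intro j c hj hc
    have : (j + 1) * L0 ≤ b * L0 := Nat.mul_le_mul_right _ hj
    rw [Nat.add_mul, Nat.one_mul] at this
    omega
  set S := (M ×ˢ range b).filter fun q => Hit A L0 q.1 q.2 with hS
  set S1 := (M ×ˢ range b).filter fun q => ∃ c, c < L0 ∧ pt q.1 (q.2 * L0 + c) ∈ T with hS1
  set S2 := (M ×ˢ range b).filter fun q => ∀ c, c < L0 → pt q.1 (q.2 * L0 + c) ∈ X with hS2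
  have hsub : S ⊆ S1 ∪ S2 := by
    intro q hq
    rw [hS, Finset.mem_filter] at hq
    obtain ⟨hq1, p, hp, hA⟩ := hq
    have h1 := Finset.mem_product.mp hq1
    have hj := Finset.mem_range.mp h1.2
    rw [Finset.mem_union, hS1, hS2, Finset.mem_filter, Finset.mem_filter]
    by_cases h3 : ∃ c, c < L0 ∧ pt q.1 (q.2 * L0 + c) ∈ T
    · exact Or.inl ⟨hq1, h3⟩
    · push Not at h3
      refine Or.inr ⟨hq1, ?_⟩
      have h4 : pt q.1 (q.2 * L0 + (p + 1)) ∈ X := by
        refine hcon q.1 h1.1 (q.2 * L0 + p) ?_ hA (h3 (p + 1) (by omega)) (h3 (p + 2) (by omega))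
        have := hlt q.2 (p + 3) hj (by omega)
        omega
      have hup : ∀ d, p + 1 + d < L0 → pt q.1 (q.2 * L0 + (p + 1 + d)) ∈ X := by
        intro d
        induction d with
        | zero => intro _; exact h4
        | succ d ih =>
          intro hd
          exact (hcl q.1 h1.1 (q.2 * L0 + (p + 1 + d)) (hlt q.2 (p + 1 + d + 1) hj hd)).1
            (ih (by omega)) (h3 _ (by omega))
      have hdn : ∀ d, d ≤ p + 1 → pt q.1 (q.2 * L0 + (p + 1 - d)) ∈ X := by
        intro d
        induction d with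
        | zero => intro _; exact h4
        | succ d ih =>
          intro hd
          have h5 := ih (by omega)
          have h6 : p + 1 - d = (p + 1 - (d + 1)) + 1 := by omega
          rw [h6] at h5
          refine (hcl q.1 h1.1 (q.2 * L0 + (p + 1 - (d + 1))) ?_).2 h5 ?_
          · have := hlt q.2 (p + 1 - (d + 1) + 1) hj (by omega)
            omega
          · exact h3 (p + 1 - (d + 1) + 1) (by omega)
      intro c hc
      rcases Nat.lt_or_ge c (p + 1) with h5 | h5
      · have := hdn (p + 1 - c) (by omega)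
        rwa [show p + 1 - (p + 1 - c) = c by omega] at this
      · have := hup (c - (p + 1)) (by omega)
        rwa [show p + 1 + (c - (p + 1)) = c by omega] at this
  have c1 : S1.card ≤ T.card := by
    have hch : ∀ q ∈ S1, ∃ c, c < L0 ∧ pt q.1 (q.2 * L0 + c) ∈ T := by
      intro q hq
      rw [hS1, Finset.mem_filter] at hq
      exact hq.2
    choose! f hf1 hf2 using hch
    refine Finset.card_le_card_of_injOn (fun q => pt q.1 (q.2 * L0 + f q)) ?_ ?_
    · intro q hq
      exact hf2 q hq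
    · intro q hq q' hq' he
      have hq2 := Finset.mem_product.mp (Finset.mem_filter.mp (Finset.mem_coe.mp hq)).1
      have hq3 := Finset.mem_product.mp (Finset.mem_filter.mp (Finset.mem_coe.mp hq')).1
      obtain ⟨e1, e2, _⟩ := block_inj hM hLb hq2.1 hq3.1 (Finset.mem_range.mp hq2.2)
        (Finset.mem_range.mp hq3.2) (hf1 q hq) (hf1 q' hq') he
      exact Prod.ext e1 e2
  have c2 : S2.card * L0 ≤ X.card := by
    rw [← Finset.card_range L0, ← Finset.card_product]
    refine Finset.card_le_card_of_injOn (fun q => pt q.1.1 (q.1.2 * L0 + q.2)) ?_ ?_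
    · intro q hq
      have h1 := Finset.mem_product.mp (Finset.mem_coe.mp hq)
      have h2 := (Finset.mem_filter.mp h1.1).2
      exact h2 q.2 (Finset.mem_range.mp h1.2)
    · intro q hq q' hq' he
      have h1 := Finset.mem_product.mp (Finset.mem_coe.mp hq)
      have h2 := Finset.mem_product.mp (Finset.mem_coe.mp hq')
      have hq2 := Finset.mem_product.mp (Finset.mem_filter.mp h1.1).1
      have hq3 := Finset.mem_product.mp (Finset.mem_filter.mp h2.1).1
      obtain ⟨e1, e2, e3⟩ := block_inj hM hLb hq2.1 hq3.1 (Finset.mem_range.mp hq2.2)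
        (Finset.mem_range.mp hq3.2) (Finset.mem_range.mp h1.2) (Finset.mem_range.mp h2.2) he
      exact Prod.ext (Prod.ext e1 e2) e3
  have c3 := Finset.card_le_card hsub
  have c4 := Finset.card_union_le S1 S2
  have hL0' : (4 : ℝ) ≤ L0 := by exact_mod_cast hL0
  have c5 : (S2.card : ℝ) ≤ nn V / (2 * L0) := by
    rw [le_div_iff₀ (by linarith)]
    have e1 : (S2.card : ℝ) * L0 ≤ X.card := by exact_mod_cast c2
    have e2 : 2 * (X.card : ℝ) ≤ nn V := by
      unfold nn
      exact_mod_cast hX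
    linarith
  have c6 : (S.card : ℝ) ≤ m + S2.card := by
    have : S.card ≤ m + S2.card := by omega
    exact_mod_cast this
  linarith

end Pool.H90BX.E59
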