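import Pool.Agent.H59.BX.Bridge
import Pool.Agent.H59.BX.Count

set_option autoImplicit false
set_option linter.unusedSectionVars false

/-! Windows of the starting configuration. -/

namespace Pool.H90BX.E59

open Finset
open scoped Classical

variable {V : Type} [Fintype V] [DecidableEq V] {L : ℕ} [NeZero L]
  {l : LS V} {R : V → Lb → Lb} {CS : Conf V} {M : Finset (Fin L → V)}

/-- the window slots of the bulk -/
def BWd (M : Finset (Fin L → V)) (p : V × Bool) : Prop :=
  ∃ P ∈ M, ∃ a, a + 4 ≤ L ∧ p = (pt P (a + 1), true)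

theorem bwd_ok (hM : Fam M) {p : V × Bool} (hp : BWd M p) : WOk (bconf l R CS M) p := by
  obtain ⟨P, hP, a, ha, rfl⟩ := hp
  have h1 : (bconf l R CS M).sg (pt P (a + 1), true) = (pt P (a + 1 + 1), false) :=
    sg_true hM hP (by omega)
  have h2 : (bconf l R CS M).sg (fl (pt P (a + 1), true)) = (pt P a, true) :=
    sg_false hM hP (by omega)
  have h3 : (bconf l R CS M).sg (fl (pt P (a + 1 + 1), false)) = (pt P (a + 1 + 1 + 1), false) :=
    sg_true hM hP (by omega)
  refine ⟨?_, ?_, ?_⟩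
  · rw [h1]
    intro h
    have := congrArg Prod.snd h
    simp at this
  · rw [h2]
    intro h
    have := congrArg Prod.snd h
    simp [fl] at this
  · rw [h1, h3]
    intro h
    have := congrArg Prod.snd h
    simp [fl] at this

theorem bwd_sg (hM : Fam M) {P : Fin L → V} (hP : P ∈ M) {a : ℕ} (ha : a + 4 ≤ L) :
    (bconf l R CS M).sg (pt P (a + 1), true) = (pt P (a + 2), false) :=
  sg_true hM hP (show a + 1 + 1 < L by omega)

theorem bwd_st (hM : Fam M) {P : Fin L → V} (hP : P ∈ M) {a : ℕ} (ha : a + 4 ≤ L) :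
    (bconf l R CS M).st (pt P (a + 1), true) = (pt P (a + 1), l (pt P (a + 1)) (pt P a)) := by
  unfold Conf.st
  rw [show fl (pt P (a + 1), true) = (pt P (a + 1), false) from rfl, lab_false hM hP (by omega)]

theorem bwd_st' (hM : Fam M) {P : Fin L → V} (hP : P ∈ M) {a : ℕ} (ha : a + 4 ≤ L) :
    (bconf l R CS M).st (pt P (a + 2), false) =
      (pt P (a + 2), l (pt P (a + 2)) (pt P (a + 3))) := by
  unfold Conf.st
  rw [show fl (pt P (a + 2), false) = (pt P (a + 2), true) from rfl]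
  rw [lab_true hM hP (show a + 2 + 1 < L by omega)]

theorem pick_of (hM : Fam M) (m : ℕ) (A A' : St V → Prop)
    (h : 2 * (m : ℝ) < ∑ P ∈ M, ∑ a ∈ range (L - 3),
      (if A (pt P (a + 1), l (pt P (a + 1)) (pt P a)) ∧
        A' (pt P (a + 2), l (pt P (a + 2)) (pt P (a + 3))) then (1 : ℝ) else 0)) :
    Pick (bconf l R CS M) (BWd M) m A A' := by
  intro T hT
  obtain ⟨P, hP, a, ha, ⟨h1, h2⟩, h3, h4⟩ := pick_count hM
    (fun P a => A (pt P (a + 1), l (pt P (a + 1)) (pt P a)) ∧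
        A' (pt P (a + 2), l (pt P (a + 2)) (pt P (a + 3)))) m (by convert h) T hT
  refine ⟨(pt P (a + 1), true), ⟨P, hP, a, ha, rfl⟩, h3, ?_, ?_, ?_⟩
  · rw [bwd_sg hM hP ha]
    exact h4
  · rw [bwd_st hM hP ha]
    exact h1
  · rw [bwd_sg hM hP ha, bwd_st' hM hP ha]
    exact h2

/-- the 4-tuples that connect the two states -/
def AM (l : LS V) (s s' : St V) (x0 x1 x2 x3 : V) : Prop :=
  (J l s (x1, l x1 x0) ∧ J l s' (x2, l x2 x3)) ∨ (J l s (x2, l x2 x3) ∧ J l s' (x1, l x1 x0))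

theorem AM_rev (l : LS V) (s s' : St V) (x y z w : V) (h : AM l s s' x y z w) :
    AM l s s' w z y x := by
  rcases h with ⟨h1, h2⟩ | ⟨h1, h2⟩
  · exact Or.inr ⟨h1, h2⟩
  · exact Or.inl ⟨h1, h2⟩

theorem merge_of (hM : Fam M) {L0 b : ℕ} (hL0 : 4 ≤ L0) (hLb : L = b * L0) (m : ℕ) (s s' : St V)
    (h : (m : ℝ) + nn V / (2 * L0) <
      ∑ P ∈ M, ∑ j ∈ range b, (if Hit (AM l s s') L0 P j then (1 : ℝ) else 0)) :
    MergeOk l (bconf l R CS M) (BWd M) m s s' := by
  intro X T hT hX hcl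
  obtain ⟨P, hP, a, ha, hA, h1, h2, h3⟩ := merge_count hM hL0 hLb (AM l s s') m h X T hT hX (by
    intro P hP a ha
    constructor
    · intro h1 h2
      have := hcl (pt P a, true) h1 h2
      rwa [sg_true hM hP ha] at this
    · intro h1 h2
      have := hcl (pt P (a + 1), false) h1 h2
      rwa [sg_false hM hP ha] at this)
  refine ⟨(pt P (a + 1), true), ⟨P, hP, a, ha, rfl⟩, h1, ?_, h3, ?_⟩
  · rw [bwd_sg hM hP ha]
    exact h2
  · rw [bwd_sg hM hP ha, bwd_st hM hP ha, bwd_st' hM hP ha]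
    exact hA

end Pool.H90BX.E59
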