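import Pool.Agent.H90.BX.Erg
import Pool.Agent.H59.BX.Push
import Pool.Agent.H59.BX.Win

set_option autoImplicit false
set_option linter.unusedSectionVars false

/-! Expectations of the test functions. -/

namespace Pool.H90BX.E59

open Finset
open scoped Classical

variable {V : Type} [Fintype V] [DecidableEq V]

theorem sum_fin_succ {n : ℕ} (f : (Fin (n + 1) → V) → ℝ) :
    ∑ x, f x = ∑ a, ∑ y : Fin n → V, f (Fin.cons a y) := by
  rw [← Fintype.sum_prod_type' (fun (a : V) (y : Fin n → V) => f (Fin.cons a y))]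
  exact (Fintype.sum_equiv (Fin.consEquiv (fun _ : Fin (n + 1) => V)) _ _ (fun _ => rfl)).symm

theorem sum_fin_zero (f : (Fin 0 → V) → ℝ) : ∑ x, f x = f ![] := by
  rw [Fintype.sum_unique]
  congr 1

theorem sum_fin_four (f : (Fin 4 → V) → ℝ) :
    ∑ x, f x = ∑ a, ∑ b, ∑ c, ∑ d, f ![a, b, c, d] := by
  rw [sum_fin_succ]
  refine Finset.sum_congr rfl fun a _ => ?_
  rw [sum_fin_succ]
  refine Finset.sum_congr rfl fun b _ => ?_
  rw [sum_fin_succ]
  refine Finset.sum_congr rfl fun c _ => ?_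
  rw [sum_fin_succ]
  refine Finset.sum_congr rfl fun d _ => ?_
  rw [sum_fin_zero]
  rfl

theorem sum_fin_two (f : (Fin 2 → V) → ℝ) : ∑ x, f x = ∑ a, ∑ b, f ![a, b] := by
  rw [sum_fin_succ]
  refine Finset.sum_congr rfl fun a _ => ?_
  rw [sum_fin_succ]
  refine Finset.sum_congr rfl fun b _ => ?_
  rw [sum_fin_zero]
  rfl

theorem mu_four (l : LS V) (a b c d : V) : mu l 4 ![a, b, c, d] = mu4 l a b c d := by
  unfold mu mu4
  have e0 : pt (![a, b, c, d] : Fin 4 → V) 0 = a := rfl
  have e1 : pt (![a, b, c, d] : Fin 4 → V) 1 = b := rfl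
  have e2 : pt (![a, b, c, d] : Fin 4 → V) 2 = c := rfl
  have e3 : pt (![a, b, c, d] : Fin 4 → V) 3 = d := rfl
  rw [show (4 - 2 : ℕ) = 2 from rfl, Finset.prod_range_succ, Finset.prod_range_one]
  simp only [Nat.zero_add, Nat.reduceAdd]
  rw [e0, e1, e2, e3]
  by_cases h : a ≠ b ∧ c ≠ b
  · rw [if_pos h.1, if_pos h.2.symm, mul_assoc]
  · have : Q l b a c = 0 := by
      unfold Q
      rw [if_neg h]
    rw [this]
    simp

theorem exp_mass {L : ℕ} [NeZero L] (hL : 4 ≤ L) {l : LS V} (hl : Bdd l) (A A' : St V → Prop) :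
    ∑ P : Fin L → V, mu l L P * (∑ a ∈ range (L - 3),
      (if A (pt P (a + 1), l (pt P (a + 1)) (pt P a)) ∧
        A' (pt P (a + 2), l (pt P (a + 2)) (pt P (a + 3))) then (1 : ℝ) else 0)) =
      ((L : ℝ) - 3) * mass l A A' := by
  have h1 : ∀ a ∈ range (L - 3), ∑ P : Fin L → V, mu l L P *
      (if A (pt P (a + 1), l (pt P (a + 1)) (pt P a)) ∧
        A' (pt P (a + 2), l (pt P (a + 2)) (pt P (a + 3))) then (1 : ℝ) else 0) = mass l A A' := by
    intro a ha
    have ha' := Finset.mem_range.mp ha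
    have h2 := mu_window L 4 (by norm_num) a (by omega) V l hl (fun x =>
      if A (pt x 1, l (pt x 1) (pt x 0)) ∧ A' (pt x 2, l (pt x 2) (pt x 3)) then (1 : ℝ) else 0)
    refine Eq.trans ?_ (h2.trans ?_)
    · refine Finset.sum_congr rfl fun P _ => ?_
      rfl
    · rw [sum_fin_four, mass_push hl]
      refine Finset.sum_congr rfl fun x _ => Finset.sum_congr rfl fun y _ =>
        Finset.sum_congr rfl fun z _ => Finset.sum_congr rfl fun w _ => ?_
      rw [mu_four]
      have e0 : pt (![x, y, z, w] : Fin 4 → V) 0 = x := rfl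
      have e1 : pt (![x, y, z, w] : Fin 4 → V) 1 = y := rfl
      have e2 : pt (![x, y, z, w] : Fin 4 → V) 2 = z := rfl
      have e3 : pt (![x, y, z, w] : Fin 4 → V) 3 = w := rfl
      rw [e0, e1, e2, e3]
      by_cases h : A (y, l y x) ∧ A' (z, l z w)
      · rw [if_pos h, if_pos h, mul_one]
      · rw [if_neg h, if_neg h, mul_zero]
  calc _ = ∑ P : Fin L → V, ∑ a ∈ range (L - 3), mu l L P *
        (if A (pt P (a + 1), l (pt P (a + 1)) (pt P a)) ∧
        A' (pt P (a + 2), l (pt P (a + 2)) (pt P (a + 3))) then (1 : ℝ) else 0) :=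
        Finset.sum_congr rfl fun P _ => Finset.mul_sum _ _ _
    _ = ∑ a ∈ range (L - 3), mass l A A' := by
        rw [Finset.sum_comm]
        exact Finset.sum_congr rfl h1
    _ = _ := by
        rw [Finset.sum_const, Finset.card_range, nsmul_eq_mul, Nat.cast_sub (by omega)]
        norm_num

theorem mu_total {L : ℕ} [NeZero L] (hL : 2 ≤ L) {l : LS V} (hl : Bdd l)
    (hn : 2 ≤ Fintype.card V) : ∑ P : Fin L → V, mu l L P = 1 := by
  have h2 := mu_window L 2 le_rfl 0 (by omega) V l hl (fun _ => 1)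
  simp only [mul_one] at h2
  rw [h2, sum_fin_two]
  have h3 : ∀ a b : V, mu l 2 ![a, b] = if a ≠ b then 1 / (nn V * NN V) else 0 := by
    intro a b
    unfold mu
    have e0 : pt (![a, b] : Fin 2 → V) 0 = a := rfl
    have e1 : pt (![a, b] : Fin 2 → V) 1 = b := rfl
    rw [e0, e1]
    simp
  have hn' : (2 : ℝ) ≤ nn V := by
    unfold nn
    exact_mod_cast hn
  have hN : NN V = nn V - 1 := rfl
  have h4 : ∀ a : V, ∑ b, mu l 2 ![a, b] = 1 / nn V := by
    intro a
    rw [Finset.sum_congr rfl fun b _ => h3 a b, ← Finset.sum_filter, Finset.sum_const,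
      nsmul_eq_mul]
    have h5 : (univ.filter fun b => a ≠ b) = univ.erase a := by
      ext b
      simp [eq_comm]
    rw [h5, Finset.card_erase_of_mem (Finset.mem_univ a), Finset.card_univ,
      Nat.cast_sub (by omega)]
    have h6 : ((Fintype.card V : ℝ) - ((1 : ℕ) : ℝ)) = NN V := by
      rw [hN]
      unfold nn
      norm_num
    rw [h6]
    have h7 : NN V ≠ 0 := by
      rw [hN]
      linarith
    have h8 : nn V ≠ 0 := by linarith
    field_simp
  rw [Finset.sum_congr rfl fun a _ => h4 a, Finset.sum_const, Finset.card_univ, nsmul_eq_mul]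
  have h8 : nn V ≠ 0 := by linarith
  show nn V * (1 / nn V) = 1
  field_simp

theorem exp_hit {L L0 b : ℕ} [NeZero L] [NeZero L0] (hL0 : 4 ≤ L0) (hLb : L = b * L0)
    {l : LS V} (hl : Bdd l) (hn : 2 ≤ Fintype.card V) (A : V → V → V → V → Prop)
    (d : ℝ) (hA : ∑ P : Fin L0 → V, (if ∀ p, p + 4 ≤ L0 → ¬ A (pt P p) (pt P (p + 1))
        (pt P (p + 2)) (pt P (p + 3)) then mu l L0 P else 0) ≤ d) :
    (b : ℝ) * (1 - d) ≤ ∑ P : Fin L → V, mu l L P *
      (∑ j ∈ range b, (if Hit A L0 P j then (1 : ℝ) else 0)) := by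
  have hlt : ∀ j c, j < b → c < L0 → j * L0 + c < L := by
    intro j c hj hc
    have : (j + 1) * L0 ≤ b * L0 := Nat.mul_le_mul_right _ hj
    rw [Nat.add_mul, Nat.one_mul] at this
    omega
  have h1 : ∀ j ∈ range b, 1 - d ≤ ∑ P : Fin L → V, mu l L P *
      (if Hit A L0 P j then (1 : ℝ) else 0) := by
    intro j hj
    have hj' := Finset.mem_range.mp hj
    have h2 := mu_window L L0 (by omega) (j * L0) (by
      have := hlt j (L0 - 1) hj' (by omega)
      omega) V l hl (fun x => if (∃ p, p + 4 ≤ L0 ∧ A (pt x p) (pt x (p + 1)) (pt x (p + 2))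
        (pt x (p + 3))) then (1 : ℝ) else 0)
    have hpt : ∀ (P : Fin L → V) (c : ℕ), c < L0 →
        pt (fun a : Fin L0 => pt P (j * L0 + a)) c = pt P (j * L0 + c) := by
      intro P c hc
      show pt P (j * L0 + ((Fin.ofNat L0 c : Fin L0) : ℕ)) = _
      congr 2
      simp [Fin.ofNat, Nat.mod_eq_of_lt hc]
    have h3 : ∑ P : Fin L → V, mu l L P * (if Hit A L0 P j then (1 : ℝ) else 0) =
        ∑ x : Fin L0 → V, mu l L0 x * (if (∃ p, p + 4 ≤ L0 ∧ A (pt x p) (pt x (p + 1))
          (pt x (p + 2)) (pt x (p + 3))) then (1 : ℝ) else 0) := by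
      rw [← h2]
      refine Finset.sum_congr rfl fun P _ => ?_
      congr 1
      have e : Hit A L0 P j ↔ (∃ p, p + 4 ≤ L0 ∧
          A (pt (fun a : Fin L0 => pt P (j * L0 + a)) p)
          (pt (fun a : Fin L0 => pt P (j * L0 + a)) (p + 1))
          (pt (fun a : Fin L0 => pt P (j * L0 + a)) (p + 2))
          (pt (fun a : Fin L0 => pt P (j * L0 + a)) (p + 3))) := by
        unfold Hit
        constructor
        · rintro ⟨p, hp, h⟩
          refine ⟨p, hp, ?_⟩
          rw [hpt P p (by omega), hpt P (p + 1) (by omega), hpt P (p + 2) (by omega),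
            hpt P (p + 3) (by omega)]
          exact h
        · rintro ⟨p, hp, h⟩
          refine ⟨p, hp, ?_⟩
          rw [hpt P p (by omega), hpt P (p + 1) (by omega), hpt P (p + 2) (by omega),
            hpt P (p + 3) (by omega)] at h
          exact h
      by_cases h : Hit A L0 P j
      · rw [if_pos h, if_pos (e.mp h)]
      · rw [if_neg h, if_neg (fun h' => h (e.mpr h'))]
    rw [h3]
    have h4 : ∑ x : Fin L0 → V, mu l L0 x * (if (∃ p, p + 4 ≤ L0 ∧ A (pt x p) (pt x (p + 1))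
          (pt x (p + 2)) (pt x (p + 3))) then (1 : ℝ) else 0) +
        ∑ P : Fin L0 → V, (if ∀ p, p + 4 ≤ L0 → ¬ A (pt P p) (pt P (p + 1))
        (pt P (p + 2)) (pt P (p + 3)) then mu l L0 P else 0) = 1 := by
      rw [← Finset.sum_add_distrib]
      refine Eq.trans ?_ (mu_total (L := L0) (by omega) hl hn)
      refine Finset.sum_congr rfl fun x _ => ?_
      by_cases h : ∃ p, p + 4 ≤ L0 ∧ A (pt x p) (pt x (p + 1)) (pt x (p + 2)) (pt x (p + 3))
      · rw [if_pos h, if_neg, mul_one, add_zero]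
        intro h'
        obtain ⟨p, hp, hp2⟩ := h
        exact h' p hp hp2
      · rw [if_neg h, if_pos, mul_zero, zero_add]
        intro p hp hp2
        exact h ⟨p, hp, hp2⟩
    linarith
  calc (b : ℝ) * (1 - d) = ∑ _j ∈ range b, (1 - d) := by
        rw [Finset.sum_const, Finset.card_range, nsmul_eq_mul]
    _ ≤ ∑ j ∈ range b, ∑ P : Fin L → V, mu l L P * (if Hit A L0 P j then (1 : ℝ) else 0) :=
        Finset.sum_le_sum h1
    _ = _ := by
        rw [Finset.sum_comm]
        exact Finset.sum_congr rfl fun P _ => (Finset.mul_sum _ _ _).symm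

end Pool.H90BX.E59
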