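import Pool.Agent.H90.BX.Bulk
import Pool.Agent.H59.BX.Exp
import Pool.Agent.H59.BX.BOk
import Pool.Agent.H59.BX.BTok

set_option autoImplicit false
set_option linter.unusedSectionVars false

/-! Assembly of the engine. -/

namespace Pool.H90BX.E59

open Finset
open scoped Classical

/-- second relation of the window tests -/
def A2 {V : Type} [Fintype V] [DecidableEq V] (l : LS V) (c1 eta : ℝ) {K : ℕ} (t : Tok V) :
    Option (Fin (K + 1)) → St V → Prop
  | none => JG l c1 t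
  | some k => G l c1 eta t k

/-- the tests -/
noncomputable def FT {V : Type} [Fintype V] [DecidableEq V] {L : ℕ} [NeZero L] (l : LS V)
    (c1 eta : ℝ) (K L0 b : ℕ) :
    (Tok V × Tok V × Option (Fin (K + 1))) ⊕ (St V × St V) → (Fin L → V) → ℝ
  | Sum.inl q => fun P => ∑ a ∈ range (L - 3),
      (if JG l c1 q.1 (pt P (a + 1), l (pt P (a + 1)) (pt P a)) ∧
        A2 l c1 eta q.2.1 q.2.2 (pt P (a + 2), l (pt P (a + 2)) (pt P (a + 3)))
        then (1 : ℝ) else 0)
  | Sum.inr q => fun P => ∑ j ∈ range b, (if Hit (AM l q.1 q.2) L0 P j then (1 : ℝ) else 0)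

theorem sum_ite_bd (k : ℕ) (B : ℕ → Prop) :
    0 ≤ ∑ j ∈ range k, (if B j then (1 : ℝ) else 0) ∧
      ∑ j ∈ range k, (if B j then (1 : ℝ) else 0) ≤ k := by
  constructor
  · refine Finset.sum_nonneg fun j _ => ?_
    by_cases h : B j
    · rw [if_pos h]
      norm_num
    · rw [if_neg h]
  · calc ∑ j ∈ range k, (if B j then (1 : ℝ) else 0) ≤ ∑ _j ∈ range k, (1 : ℝ) := by
          refine Finset.sum_le_sum fun j _ => ?_
          by_cases h : B j
          · rw [if_pos h]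
          · rw [if_neg h]
            norm_num
      _ = k := by
          rw [Finset.sum_const, Finset.card_range, nsmul_eq_mul, mul_one]

theorem FT_bd {V : Type} [Fintype V] [DecidableEq V] {L : ℕ} [NeZero L] (l : LS V)
    (c1 eta : ℝ) (K L0 b : ℕ) (hb : b ≤ L)
    (i : (Tok V × Tok V × Option (Fin (K + 1))) ⊕ (St V × St V)) (P : Fin L → V) :
    0 ≤ FT l c1 eta K L0 b i P ∧ FT l c1 eta K L0 b i P ≤ L := by
  rcases i with q | q
  · obtain ⟨h1, h2⟩ := sum_ite_bd (L - 3) (fun a =>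
      JG l c1 q.1 (pt P (a + 1), l (pt P (a + 1)) (pt P a)) ∧
        A2 l c1 eta q.2.1 q.2.2 (pt P (a + 2), l (pt P (a + 2)) (pt P (a + 3))))
    refine ⟨?_, ?_⟩
    · refine le_trans h1 (le_of_eq ?_)
      exact Finset.sum_congr rfl fun a _ => ite_inst _ _ _ _ _
    · refine le_trans (le_of_eq ?_) (h2.trans ?_)
      · exact Finset.sum_congr rfl fun a _ => ite_inst _ _ _ _ _
      · exact_mod_cast Nat.sub_le L 3
  · obtain ⟨h1, h2⟩ := sum_ite_bd b (fun j => Hit (AM l q.1 q.2) L0 P j)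
    exact ⟨h1, h2.trans (by exact_mod_cast hb)⟩

theorem card_tests {V : Type} [Fintype V] (K : ℕ) (hn : 4096 * (K + 2) + 16 ≤ Fintype.card V) :
    Fintype.card ((Tok V × Tok V × Option (Fin (K + 1))) ⊕ (St V × St V)) ≤
      Fintype.card V ^ 3 := by
  have hS : Fintype.card (St V) = Fintype.card V * 4 := by
    rw [Fintype.card_prod, Fintype.card_fin]
  have hT : Fintype.card (Tok V) = Fintype.card V * 4 * 2 ^ 4 := by
    rw [Fintype.card_prod, hS, Fintype.card_finset, Fintype.card_fin]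
  have hA : Fintype.card (Tok V × Tok V × Option (Fin (K + 1))) =
      Fintype.card V * 4 * 2 ^ 4 * (Fintype.card V * 4 * 2 ^ 4 * (K + 1 + 1)) := by
    rw [Fintype.card_prod (Tok V), Fintype.card_prod (Tok V), Fintype.card_option,
      Fintype.card_fin (K + 1), hT]
  have hB : Fintype.card (St V × St V) = Fintype.card V * 4 * (Fintype.card V * 4) := by
    rw [Fintype.card_prod (St V), hS]
  rw [Fintype.card_sum, hA, hB]
  calc Fintype.card V * 4 * 2 ^ 4 * (Fintype.card V * 4 * 2 ^ 4 * (K + 1 + 1)) +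
      Fintype.card V * 4 * (Fintype.card V * 4)
      = (4096 * (K + 2) + 16) * Fintype.card V ^ 2 := by ring
    _ ≤ Fintype.card V * Fintype.card V ^ 2 := Nat.mul_le_mul_right _ hn
    _ = Fintype.card V ^ 3 := by ring

/-- numerical inequality for the picks -/
theorem num_pick {κ e eta Li n m s : ℝ} (hκ : 3 ≤ κ) (hn : 0 < n) (heta : 0 < eta)
    (h1 : 400 * (κ * e) ≤ eta) (he : 0 < e) (h2 : 400 * (κ * Li) ≤ eta)
    (hm : m ≤ 6 * (κ * e + κ * Li) * n) (hs : n * (eta / 4) - e * n ≤ s) : 2 * m < s := by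
  have h3 : 1200 * e ≤ eta := by nlinarith
  have h4 : m ≤ 6 * (eta / 200) * n := by
    refine hm.trans (mul_le_mul_of_nonneg_right ?_ hn.le)
    linarith
  have h5 : e * n ≤ eta / 1200 * n := mul_le_mul_of_nonneg_right (by linarith) hn.le
  have h6 : 0 < eta * n := mul_pos heta hn
  nlinarith

/-- numerical inequality for the merging -/
theorem num_merge {κ e Li n m s I0 : ℝ} (hκ : 3 ≤ κ) (hn : 0 < n) (hI : 0 < I0) (he : 0 < e)
    (h1 : 100 * (κ * e) ≤ I0) (h2 : 100 * (κ * Li) ≤ I0)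
    (hm : m ≤ 6 * (κ * e + κ * Li) * n) (hs : n * I0 * (9 / 10) - e * n ≤ s) :
    m + n * I0 / 2 < s := by
  have h3 : 300 * e ≤ I0 := by nlinarith
  have h4 : m ≤ 6 * (I0 / 50) * n := by
    refine hm.trans (mul_le_mul_of_nonneg_right ?_ hn.le)
    linarith
  have h5 : e * n ≤ I0 / 300 * n := mul_le_mul_of_nonneg_right (by linarith) hn.le
  have h6 : 0 < I0 * n := mul_pos hI hn
  nlinarith

theorem engine' (c1 eta : ℝ) (hc1 : 0 < c1) (heta : 0 < eta) (K : ℕ) :
    ∃ xi > (0 : ℝ), ∃ n0 : ℕ, ∀ (V : Type) [Fintype V] [DecidableEq V],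
      n0 ≤ Fintype.card V → ∀ l : LS V, Bdd l →
      ∀ (BadV : Finset V) (BadE : V → V → Prop) (BadT : V → Lb → Lb → Prop)
        (R : V → Lb → Lb) (d0 d1 : V → Lb),
      (∀ v w, BadE v w → BadE w v) → (∀ v i j, BadT v i j → BadT v j i) →
      BadSmall l xi BadV BadE BadT → (∀ v i, R v i ≠ i) → (∀ v, d0 v ≠ d1 v) →
      ∀ CS : Conf V, Start l BadV d0 d1 CS →
      (∀ C : Conf V, Ext l BadV BadE BadT R CS C →
        Paired C (fun a b => Joinable l c1 eta K (C.st a, {C.lab a}) (C.st b, {C.lab b}))) →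
      Ham l := by
  obtain ⟨L0, hL0, herg⟩ := ergodic (1 / 10) c1 (by norm_num) hc1
  have hne0 : NeZero L0 := ⟨by omega⟩
  have hL0r : (4 : ℝ) ≤ L0 := by exact_mod_cast hL0
  set κ : ℝ := (K : ℝ) + 3 with hκ
  have hκ3 : 3 ≤ κ := by
    have : (0 : ℝ) ≤ K := Nat.cast_nonneg K
    linarith
  obtain ⟨b, hb⟩ := exists_nat_ge (max (400 * κ / eta) (100 * κ))
  have hb1 : 400 * κ / eta ≤ b := (le_max_left _ _).trans hb
  have hb2 : 100 * κ ≤ b := (le_max_right _ _).trans hb
  have hb3 : (1 : ℝ) ≤ b := by linarith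
  have hb4 : 1 ≤ b := by exact_mod_cast hb3
  have hbL : b ≤ b * L0 := Nat.le_mul_of_pos_right b (by omega)
  have hL4 : 4 ≤ b * L0 := by
    have : 1 * L0 ≤ b * L0 := Nat.mul_le_mul_right _ hb4
    omega
  have hneL : NeZero (b * L0) := ⟨by omega⟩
  set e : ℝ := min (eta / (400 * κ)) (1 / (100 * κ * L0)) with he
  have he0 : 0 < e := lt_min (by positivity) (by positivity)
  have he1 : 400 * (κ * e) ≤ eta := by
    have h : e ≤ eta / (400 * κ) := min_le_left _ _
    rw [le_div_iff₀ (by positivity)] at h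
    linarith
  have he2 : 100 * (κ * e) ≤ 1 / L0 := by
    have h : e ≤ 1 / (100 * κ * L0) := min_le_right _ _
    rw [le_div_iff₀ (by positivity)] at h
    rw [le_div_iff₀ (by positivity)]
    linarith
  obtain ⟨xi, hxi, n1, hbulk⟩ := bulk (b * L0) hL4 e he0 3
  refine ⟨xi, hxi, max n1 (4096 * (K + 2) + 16), ?_⟩
  intro V _ _ hn l hl BadV BadE BadT R d0 d1 hE hT hBad hR hd CS hS hpair
  have hn1 : n1 ≤ Fintype.card V := (le_max_left _ _).trans hn
  have hn2 : 4096 * (K + 2) + 16 ≤ Fintype.card V := (le_max_right _ _).trans hn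
  have hcard2 : 2 ≤ Fintype.card V := by omega
  have : Nonempty V := by
    rw [← Fintype.card_pos_iff]
    omega
  have hnn : 0 < nn V := by
    unfold nn
    exact_mod_cast (show 0 < Fintype.card V by omega)
  obtain ⟨M, hclean, hdisj, hcov, htest⟩ := hbulk V hn1 l hl BadV BadE BadT hBad
    ((Tok V × Tok V × Option (Fin (K + 1))) ⊕ (St V × St V)) (FT l c1 eta K L0 b)
    (card_tests K hn2) (FT_bd l c1 eta K L0 b hbL)
  have hM : Fam M := ⟨fun P hP => (hclean P hP).inj, hdisj⟩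
  -- sizes
  have hLb : ((b * L0 : ℕ) : ℝ) = b * L0 := by push_cast; ring
  have hLpos : (0 : ℝ) < ((b * L0 : ℕ) : ℝ) := by
    rw [hLb]
    positivity
  have hMcard : ((b * L0 : ℕ) : ℝ) * M.card ≤ nn V := by
    have h1 := card_inB hM
    have h2 : (univ.filter fun v : V => InB M v).card ≤ Fintype.card V := Finset.card_le_univ _
    rw [h1] at h2
    unfold nn
    exact_mod_cast h2
  set C₀ := bconf l R CS M with hC₀
  set τ := (univ.filter fun a => C₀.sg a = a).card with hτ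
  have hτ1 : (τ : ℝ) + 2 * (((b * L0 : ℕ) : ℝ) * M.card) ≤ 2 * nn V + 2 * M.card := by
    have h1 := card_tok (l := l) (R := R) (CS := CS) (show 2 ≤ b * L0 by omega) hM
    unfold nn
    exact_mod_cast h1
  have hLi : 0 < 1 / ((b * L0 : ℕ) : ℝ) := by positivity
  have hM2 : (M.card : ℝ) ≤ 1 / ((b * L0 : ℕ) : ℝ) * nn V := by
    rw [one_div_mul_eq_div, le_div_iff₀ hLpos]
    linarith
  have hτ2 : (τ : ℝ) ≤ 2 * (e + 1 / ((b * L0 : ℕ) : ℝ)) * nn V := by
    have h1 : (1 - e) * nn V ≤ ((b * L0 : ℕ) : ℝ) * M.card := hcov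
    nlinarith
  set m := 3 * ((K + 3) * τ) with hm
  have hm1 : (m : ℝ) ≤ 6 * (κ * e + κ * (1 / ((b * L0 : ℕ) : ℝ))) * nn V := by
    rw [hm]
    push_cast
    have h1 := mul_le_mul_of_nonneg_left hτ2 (show 0 ≤ 3 * κ by linarith)
    rw [hκ] at h1 ⊢
    push_cast at h1
    linarith
  have hLi1 : 400 * (κ * (1 / ((b * L0 : ℕ) : ℝ))) ≤ eta := by
    rw [mul_one_div, mul_div_assoc', div_le_iff₀ hLpos, hLb]
    rw [div_le_iff₀ heta] at hb1
    have h1 : (b : ℝ) * eta * 1 ≤ b * eta * L0 :=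
      mul_le_mul_of_nonneg_left (by linarith) (by positivity)
    linarith
  have hLi2 : 100 * (κ * (1 / ((b * L0 : ℕ) : ℝ))) ≤ 1 / L0 := by
    rw [mul_one_div, mul_div_assoc', div_le_iff₀ hLpos, hLb]
    have h1 : 1 / (L0 : ℝ) * (b * L0) = b := by field_simp
    rw [h1]
    exact hb2
  have hwin : ∀ (a t : Tok V) (o : Option (Fin (K + 1))), eta ≤ mass l (JG l c1 a)
      (A2 l c1 eta t o) → Pick C₀ (BWd M) m (JG l c1 a) (A2 l c1 eta t o) := by
    intro a t o hmass
    apply pick_of hM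
    have h1 := htest (Sum.inl (a, t, o))
    have h2 : ∑ P : Fin (b * L0) → V, mu l (b * L0) P * FT l c1 eta K L0 b (Sum.inl (a, t, o)) P =
        (((b * L0 : ℕ) : ℝ) - 3) * mass l (JG l c1 a) (A2 l c1 eta t o) :=
      exp_mass hL4 hl (JG l c1 a) (A2 l c1 eta t o)
    rw [h2] at h1
    refine num_pick hκ3 hnn heta he1 he0 hLi1 hm1 (le_trans ?_ h1)
    have h3 : nn V * (eta / 4) ≤ nn V / ((b * L0 : ℕ) : ℝ) *
        ((((b * L0 : ℕ) : ℝ) - 3) * mass l (JG l c1 a) (A2 l c1 eta t o)) := by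
      have h4 : (4 : ℝ) ≤ ((b * L0 : ℕ) : ℝ) := by exact_mod_cast hL4
      have h5 : ((b * L0 : ℕ) : ℝ) * (eta / 4) ≤
          (((b * L0 : ℕ) : ℝ) - 3) * mass l (JG l c1 a) (A2 l c1 eta t o) := by
        have h6 : ((b * L0 : ℕ) : ℝ) / 4 ≤ ((b * L0 : ℕ) : ℝ) - 3 := by linarith
        calc ((b * L0 : ℕ) : ℝ) * (eta / 4) = ((b * L0 : ℕ) : ℝ) / 4 * eta := by ring
          _ ≤ (((b * L0 : ℕ) : ℝ) - 3) * eta := mul_le_mul_of_nonneg_right h6 heta.le
          _ ≤ _ := mul_le_mul_of_nonneg_left hmass (by linarith)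
      calc nn V * (eta / 4) = nn V / ((b * L0 : ℕ) : ℝ) * (((b * L0 : ℕ) : ℝ) * (eta / 4)) := by
            field_simp
        _ ≤ _ := mul_le_mul_of_nonneg_left h5 (by positivity)
    linarith
  refine core90 (C₀ := C₀) (m := m) (K := K) (c1 := c1) (eta := eta)
    (bconf_ok hL4 hM hclean hR hS) (Wd := BWd M) (fun p hp => bwd_ok hM hp) ?_ ?_ ?_
    (bconf_reach hM hclean hS)
    (hpair C₀ (bconf_ext hL4 hM hclean hE hT hR hS)) le_rfl
  · intro a t h
    exact hwin a t none h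
  · intro a t k hk h
    exact hwin a t (some ⟨k, by omega⟩) h
  · intro s s' hs
    apply merge_of hM hL0 rfl
    have h1 := htest (Sum.inr (s, s'))
    have h0 : c1 ≤ ∑ x, ∑ y, ∑ z, ∑ w, (if AM l s s' x y z w then mu4 l x y z w else 0) := by
      refine hs.trans ?_
      unfold mu1
      rw [mass_push hl]
      refine Finset.sum_le_sum fun x _ => Finset.sum_le_sum fun y _ =>
        Finset.sum_le_sum fun z _ => Finset.sum_le_sum fun w _ => ?_
      by_cases h2 : J l s (y, l y x) ∧ J l (z, l z w) s'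
      · have h3 : AM l s s' x y z w := Or.inl ⟨h2.1, J_symm h2.2⟩
        rw [if_pos h3]
        have h4 : J l s (y, l y x) ∧ (fun y' => J l y' s') (z, l z w) := h2
        rw [if_pos h4]
      · have h4 : ¬ (J l s (y, l y x) ∧ (fun y' => J l y' s') (z, l z w)) := h2
        rw [if_neg h4]
        by_cases h3 : AM l s s' x y z w
        · rw [if_pos h3]
          exact mu4_nonneg hl x y z w
        · rw [if_neg h3]
    have h2 := herg hne0 V l hl (AM l s s') (fun x y z w h => AM_rev l s s' x y z w h) h0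
    have h3 := exp_hit (L := b * L0) hL0 rfl hl hcard2 (AM l s s') (1 / 10) h2
    refine lt_of_lt_of_le ?_ h1
    have h4 : ∑ P : Fin (b * L0) → V, mu l (b * L0) P *
        FT l c1 eta K L0 b (Sum.inr (s, s')) P =
        ∑ P : Fin (b * L0) → V, mu l (b * L0) P *
          (∑ j ∈ range b, (if Hit (AM l s s') L0 P j then (1 : ℝ) else 0)) := rfl
    rw [h4]
    have h5 : nn V / ((b * L0 : ℕ) : ℝ) * ((b : ℝ) * (1 - 1 / 10)) ≤
        nn V / ((b * L0 : ℕ) : ℝ) * (∑ P : Fin (b * L0) → V, mu l (b * L0) P *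
          (∑ j ∈ range b, (if Hit (AM l s s') L0 P j then (1 : ℝ) else 0))) :=
      mul_le_mul_of_nonneg_left h3 (by positivity)
    have h6 : nn V / ((b * L0 : ℕ) : ℝ) * ((b : ℝ) * (1 - 1 / 10)) =
        nn V * (1 / (L0 : ℝ)) * (9 / 10) := by
      rw [hLb]
      field_simp
      ring
    have h7 : nn V / (2 * (L0 : ℝ)) = nn V * (1 / (L0 : ℝ)) / 2 := by
      field_simp
    rw [h7]
    refine num_merge hκ3 hnn (by positivity) he0 he2 hLi2 hm1 ?_
    rw [h6] at h5
    linarith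

end Pool.H90BX.E59
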