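import Pool.Agent.H90.BX.Defs

set_option autoImplicit false
set_option linter.unusedSectionVars false

/-! The starting configuration: the bulk paths, the start over BadV and isolated vertices. -/

namespace Pool.H90BX.E59

open Finset
open scoped Classical

variable {V : Type} [Fintype V] [DecidableEq V] {L : ℕ} [NeZero L]

/-- a family of disjoint injective tuples -/
structure Fam (M : Finset (Fin L → V)) : Prop where
  inj : ∀ P ∈ M, Function.Injective P
  disj : ∀ P ∈ M, ∀ P' ∈ M, P ≠ P' → ∀ a b, P a ≠ P' b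

theorem pt_inj {P : Fin L → V} (hP : Function.Injective P) {a b : ℕ} (ha : a < L) (hb : b < L)
    (h : pt P a = pt P b) : a = b := by
  have h1 := congrArg Fin.val (hP h)
  simpa [Fin.ofNat, Nat.mod_eq_of_lt ha, Nat.mod_eq_of_lt hb] using h1

theorem Fam.uniq {M : Finset (Fin L → V)} (h : Fam M) {P P' : Fin L → V} (hP : P ∈ M)
    (hP' : P' ∈ M) {a b : ℕ} (ha : a < L) (hb : b < L) (he : pt P a = pt P' b) :
    P = P' ∧ a = b := by
  have h1 : P = P' := by
    by_contra hne
    exact h.disj P hP P' hP' hne _ _ he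
  subst h1
  exact ⟨rfl, pt_inj (h.inj P hP) ha hb he⟩

/-- the position of a vertex of the bulk -/
def InB (M : Finset (Fin L → V)) (v : V) : Prop :=
  ∃ q : (Fin L → V) × ℕ, q.1 ∈ M ∧ q.2 < L ∧ pt q.1 q.2 = v

theorem choose_eq {M : Finset (Fin L → V)} (hM : Fam M) {P : Fin L → V} (hP : P ∈ M) {a : ℕ}
    (ha : a < L) (h : InB M (pt P a)) : h.choose = (P, a) := by
  obtain ⟨h1, h2, h3⟩ := h.choose_spec
  obtain ⟨e1, e2⟩ := hM.uniq h1 hP h2 ha h3
  exact Prod.ext e1 e2

theorem inB_pt {M : Finset (Fin L → V)} {P : Fin L → V} (hP : P ∈ M) {a : ℕ}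
    (ha : a < L) : InB M (pt P a) := ⟨(P, a), hP, ha, rfl⟩

/-- the pairing of the slots -/
noncomputable def bsg (CS : Conf V) (M : Finset (Fin L → V)) (x : V × Bool) : V × Bool :=
  if h : InB M x.1 then
    if x.2 then (if h.choose.2 + 1 < L then (pt h.choose.1 (h.choose.2 + 1), false) else x)
    else (if 0 < h.choose.2 then (pt h.choose.1 (h.choose.2 - 1), true) else x)
  else CS.sg x

/-- the labels -/
noncomputable def blab (l : LS V) (R : V → Lb → Lb) (CS : Conf V)
    (M : Finset (Fin L → V)) (x : V × Bool) : Lb :=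
  if h : InB M x.1 then
    if x.2 then (if h.choose.2 + 1 < L then l x.1 (pt h.choose.1 (h.choose.2 + 1)) else
      R x.1 (l x.1 (pt h.choose.1 (h.choose.2 - 1))))
    else (if 0 < h.choose.2 then l x.1 (pt h.choose.1 (h.choose.2 - 1)) else
      R x.1 (l x.1 (pt h.choose.1 (h.choose.2 + 1))))
  else CS.lab x

/-- the starting configuration -/
noncomputable def bconf (l : LS V) (R : V → Lb → Lb) (CS : Conf V)
    (M : Finset (Fin L → V)) : Conf V := ⟨bsg CS M, blab l R CS M⟩

section API

variable {l : LS V} {R : V → Lb → Lb} {CS : Conf V} {M : Finset (Fin L → V)}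
  {P : Fin L → V} {a : ℕ}

theorem sg_true (hM : Fam M) (hP : P ∈ M) (ha : a + 1 < L) :
    (bconf l R CS M).sg (pt P a, true) = (pt P (a + 1), false) := by
  have h := inB_pt hP (show a < L by omega)
  have hc := choose_eq hM hP (show a < L by omega) h
  show bsg CS M (pt P a, true) = _
  unfold bsg
  rw [dif_pos (show InB M (pt P a, true).1 from h)]
  have hc' : (show InB M (pt P a, true).1 from h).choose = (P, a) := hc
  simp only [hc', if_true]
  rw [if_pos ha]

theorem sg_last (hM : Fam M) (hP : P ∈ M) (ha : a + 1 = L) :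
    (bconf l R CS M).sg (pt P a, true) = (pt P a, true) := by
  have h := inB_pt hP (show a < L by omega)
  have hc := choose_eq hM hP (show a < L by omega) h
  show bsg CS M (pt P a, true) = _
  unfold bsg
  rw [dif_pos (show InB M (pt P a, true).1 from h)]
  have hc' : (show InB M (pt P a, true).1 from h).choose = (P, a) := hc
  simp only [hc', if_true]
  rw [if_neg (show ¬ a + 1 < L by omega)]

theorem sg_false (hM : Fam M) (hP : P ∈ M) (ha : a + 1 < L) :
    (bconf l R CS M).sg (pt P (a + 1), false) = (pt P a, true) := by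
  have h := inB_pt hP ha
  have hc := choose_eq hM hP ha h
  show bsg CS M (pt P (a + 1), false) = _
  unfold bsg
  rw [dif_pos (show InB M (pt P (a + 1), false).1 from h)]
  have hc' : (show InB M (pt P (a + 1), false).1 from h).choose = (P, a + 1) := hc
  simp only [hc']
  rw [if_neg (by decide), if_pos (show 0 < a + 1 by omega)]
  rfl

theorem sg_first (hM : Fam M) (hP : P ∈ M) :
    (bconf l R CS M).sg (pt P 0, false) = (pt P 0, false) := by
  have h0 : 0 < L := Nat.pos_of_ne_zero (NeZero.ne L)
  have h := inB_pt hP h0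
  have hc := choose_eq hM hP h0 h
  show bsg CS M (pt P 0, false) = _
  unfold bsg
  rw [dif_pos (show InB M (pt P 0, false).1 from h)]
  have hc' : (show InB M (pt P 0, false).1 from h).choose = (P, 0) := hc
  simp only [hc']
  rw [if_neg (by decide), if_neg (by omega)]

theorem sg_out {x : V × Bool} (hx : ¬ InB M x.1) : (bconf l R CS M).sg x = CS.sg x := by
  show bsg CS M x = _
  unfold bsg
  rw [dif_neg hx]

theorem lab_true (hM : Fam M) (hP : P ∈ M) (ha : a + 1 < L) :
    (bconf l R CS M).lab (pt P a, true) = l (pt P a) (pt P (a + 1)) := by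
  have h := inB_pt hP (show a < L by omega)
  have hc := choose_eq hM hP (show a < L by omega) h
  show blab l R CS M (pt P a, true) = _
  unfold blab
  rw [dif_pos (show InB M (pt P a, true).1 from h)]
  have hc' : (show InB M (pt P a, true).1 from h).choose = (P, a) := hc
  simp only [hc', if_true]
  rw [if_pos ha]

theorem lab_last (hM : Fam M) (hP : P ∈ M) (ha : a + 2 = L) :
    (bconf l R CS M).lab (pt P (a + 1), true) =
      R (pt P (a + 1)) (l (pt P (a + 1)) (pt P a)) := by
  have h := inB_pt hP (show a + 1 < L by omega)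
  have hc := choose_eq hM hP (show a + 1 < L by omega) h
  show blab l R CS M (pt P (a + 1), true) = _
  unfold blab
  rw [dif_pos (show InB M (pt P (a + 1), true).1 from h)]
  have hc' : (show InB M (pt P (a + 1), true).1 from h).choose = (P, a + 1) := hc
  simp only [hc', if_true]
  rw [if_neg (show ¬ a + 1 + 1 < L by omega)]
  rfl

theorem lab_false (hM : Fam M) (hP : P ∈ M) (ha : a + 1 < L) :
    (bconf l R CS M).lab (pt P (a + 1), false) = l (pt P (a + 1)) (pt P a) := by
  have h := inB_pt hP ha
  have hc := choose_eq hM hP ha h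
  show blab l R CS M (pt P (a + 1), false) = _
  unfold blab
  rw [dif_pos (show InB M (pt P (a + 1), false).1 from h)]
  have hc' : (show InB M (pt P (a + 1), false).1 from h).choose = (P, a + 1) := hc
  simp only [hc']
  rw [if_neg (by decide), if_pos (show 0 < a + 1 by omega)]
  rfl

theorem lab_first (hM : Fam M) (hP : P ∈ M) :
    (bconf l R CS M).lab (pt P 0, false) = R (pt P 0) (l (pt P 0) (pt P 1)) := by
  have h0 : 0 < L := Nat.pos_of_ne_zero (NeZero.ne L)
  have h := inB_pt hP h0
  have hc := choose_eq hM hP h0 h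
  show blab l R CS M (pt P 0, false) = _
  unfold blab
  rw [dif_pos (show InB M (pt P 0, false).1 from h)]
  have hc' : (show InB M (pt P 0, false).1 from h).choose = (P, 0) := hc
  simp only [hc']
  rw [if_neg (by decide), if_neg (by omega)]

theorem lab_out {x : V × Bool} (hx : ¬ InB M x.1) : (bconf l R CS M).lab x = CS.lab x := by
  show blab l R CS M x = _
  unfold blab
  rw [dif_neg hx]

/-- all cases for a slot -/
theorem slot_cases (hL : 2 ≤ L) (x : V × Bool) : ¬ InB M x.1 ∨
    (∃ P ∈ M, ∃ a, a + 1 < L ∧ x = (pt P a, true)) ∨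
    (∃ P ∈ M, ∃ a, a + 1 < L ∧ x = (pt P (a + 1), false)) ∨
    (∃ P ∈ M, ∃ a, a + 2 = L ∧ x = (pt P (a + 1), true)) ∨
    (∃ P ∈ M, x = (pt P 0, false)) := by
  by_cases h : InB M x.1
  · obtain ⟨⟨P, a⟩, h1, h2, h3⟩ := h
    obtain ⟨v, i⟩ := x
    simp only at h1 h2 h3
    subst h3
    cases i
    · rcases Nat.eq_zero_or_pos a with h4 | h4
      · subst h4
        exact Or.inr (Or.inr (Or.inr (Or.inr ⟨P, h1, rfl⟩)))
      · obtain ⟨b, rfl⟩ : ∃ b, a = b + 1 := ⟨a - 1, by omega⟩
        exact Or.inr (Or.inr (Or.inl ⟨P, h1, b, h2, rfl⟩))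
    · rcases Nat.lt_or_ge (a + 1) L with h4 | h4
      · exact Or.inr (Or.inl ⟨P, h1, a, h4, rfl⟩)
      · obtain ⟨b, rfl⟩ : ∃ b, a = b + 1 := ⟨a - 1, by omega⟩
        exact Or.inr (Or.inr (Or.inr (Or.inl ⟨P, h1, b, by omega, rfl⟩)))
  · exact Or.inl h

end API

end Pool.H90BX.E59
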