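import Pool.Agent.H90.BX.Defs
import Pool.Agent.H59.BE.ECore

set_option autoImplicit false
set_option linter.unusedSectionVars false

/-! The combinatorial core of the engine (H59/BE) in the terms of H90/BX/Defs. -/

namespace Pool.H90BX.E59

open Finset
open scoped Classical

variable {V : Type} [Fintype V] [DecidableEq V]

theorem W_symm (l : LS V) (s t : St V) : W l s t = W l t s := by
  unfold W
  by_cases h : s.1 = t.1
  · simp [h]
  · rw [if_pos h, if_pos (Ne.symm h)]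
    ring

theorem J_symm {l : LS V} {s t : St V} (h : J l s t) : J l t s := ⟨h.1.symm, h.2.2, h.2.1⟩

theorem J_comm (l : LS V) (s t : St V) : J l s t ↔ J l t s := ⟨J_symm, J_symm⟩

theorem mu1_symm (l : LS V) (s t : St V) : mu1 l s t = mu1 l t s := by
  unfold mu1 mass
  rw [Finset.sum_comm]
  refine Finset.sum_congr rfl fun y _ => Finset.sum_congr rfl fun y' _ => ?_
  rw [W_symm l y' y]
  have e : (J l s y' ∧ J l y t) ↔ (J l t y ∧ J l y' s) := by
    rw [J_comm l s y', J_comm l y t]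
    exact and_comm
  by_cases h : J l s y' ∧ J l y t
  · rw [if_pos h, if_pos (e.mp h)]
  · rw [if_neg h, if_neg (fun h' => h (e.mpr h'))]

/-- windows with `P`, `P'` avoiding any `m` vertices -/
def Pick (C₀ : Conf V) (Wd : V × Bool → Prop) (m : ℕ) (P P' : St V → Prop) : Prop :=
  ∀ T : Finset V, T.card ≤ m → ∃ p, Wd p ∧ p.1 ∉ T ∧ (C₀.sg p).1 ∉ T ∧ P (C₀.st p) ∧
    P' (C₀.st (C₀.sg p))

/-- windows for merging -/
def MergeOk (l : LS V) (C₀ : Conf V) (Wd : V × Bool → Prop) (m : ℕ) (s s' : St V) : Prop :=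
  ∀ X T : Finset V, T.card ≤ m → 2 * X.card ≤ Fintype.card V →
    (∀ x : V × Bool, x.1 ∈ X → x.1 ∉ T → (C₀.sg x).1 ∈ X) →
    ∃ p, Wd p ∧ p.1 ∉ T ∧ (C₀.sg p).1 ∉ T ∧ p.1 ∉ X ∧
      ((J l s (C₀.st p) ∧ J l s' (C₀.st (C₀.sg p))) ∨
        (J l s (C₀.st (C₀.sg p)) ∧ J l s' (C₀.st p)))

/-- window slots -/
def WOk (C₀ : Conf V) (p : V × Bool) : Prop :=
  C₀.sg p ≠ p ∧ C₀.sg (fl p) ≠ fl p ∧ C₀.sg (fl (C₀.sg p)) ≠ fl (C₀.sg p)

/-- the configuration in the terms of H59/BE -/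
def _root_.Pool.H90BX.Conf.toE (C : Conf V) : H59.BE.Conf V (Lb) := ⟨C.sg, C.lab⟩

theorem _root_.Pool.H90BX.Conf.Ok.toE {C : Conf V} {l : LS V} (h : C.Ok l) : C.toE.Valid l :=
  ⟨h.inv, h.lab_ne, h.ne, h.lab_eq⟩

theorem _root_.Pool.H90BX.Conf.Ok.adj_toE {C : Conf V} {l : LS V} (h : C.Ok l) {v w : V} (hvw : C.adj v w) :
    C.toE.graph.Adj v w := by
  obtain ⟨b, h1, h2⟩ := hvw
  have := h.toE.adj_slot (v, b) h1
  rwa [show (C.toE.σ (v, b)).1 = w from h2] at this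

theorem _root_.Pool.H90BX.Conf.Ok.reach_toE {C : Conf V} {l : LS V} (h : C.Ok l) {v w : V}
    (hvw : Relation.ReflTransGen C.adj v w) : C.toE.graph.Reachable v w := by
  induction hvw with
  | refl => exact SimpleGraph.Reachable.refl _
  | tail _ hbc ih => exact ih.trans (h.adj_toE hbc).reachable

/-- `big` for relations -/
def bigE (l : LS V) (eta : ℝ) (A : St V → St V → Prop) : Prop :=
  eta ≤ ∑ y, ∑ y', if A y y' then W l y y' else 0

theorem bigE_iff (l : LS V) (eta : ℝ) (P P' : St V → Prop) :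
    bigE l eta (fun y y' => P y ∧ P' y') ↔ eta ≤ mass l P P' := by
  unfold bigE mass
  rw [iff_iff_eq]
  congr 1
  refine Finset.sum_congr rfl fun y _ => Finset.sum_congr rfl fun y' _ => ?_
  congr

theorem JG_iff (l : LS V) (c : ℝ) (a : Tok V) (y : St V) :
    H59.BE.JG l (fun s t => c ≤ mu1 l s t) a.1 (a.2 : Set (Lb)) y ↔ JG l c a y := Iff.rfl

theorem JG_univ (l : LS V) (c : ℝ) (s : St V) (y : St V) :
    H59.BE.JG l (fun s t => c ≤ mu1 l s t) s Set.univ y ↔ JG l c (s, univ) y := by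
  rw [← JG_iff, Finset.coe_univ]

theorem GG_iff (l : LS V) (c eta : ℝ) (t : Tok V) (k : ℕ) (s : St V) :
    H59.BE.GG l (fun s t => c ≤ mu1 l s t) (bigE l eta) t.1 (t.2 : Set (Lb)) k s ↔
      G l c eta t k s := by
  induction k generalizing s with
  | zero =>
    show bigE l eta _ ↔ _
    simp only [JG_univ, JG_iff]
    rw [bigE_iff]
    rfl
  | succ k ih =>
    show (H59.BE.GG _ _ _ _ _ _ _ ∨ bigE l eta _) ↔ _
    simp only [ih, JG_univ]
    rw [bigE_iff]
    rfl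

/-- the core of the engine -/
theorem core90 [Nonempty V] {l : LS V} {c1 eta : ℝ} {K m : ℕ} {C₀ : Conf V} (h₀ : C₀.Ok l)
    {Wd : V × Bool → Prop} (hWd : ∀ p, Wd p → WOk C₀ p)
    (hp0 : ∀ a t : Tok V, eta ≤ mass l (JG l c1 a) (JG l c1 t) →
      Pick C₀ Wd m (JG l c1 a) (JG l c1 t))
    (hp1 : ∀ (a t : Tok V) (k : ℕ), k ≤ K → eta ≤ mass l (JG l c1 a) (G l c1 eta t k) →
      Pick C₀ Wd m (JG l c1 a) (G l c1 eta t k))
    (hM : ∀ s s', c1 ≤ mu1 l s s' → MergeOk l C₀ Wd m s s')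
    (hr : ∀ v, ∃ w, Relation.ReflTransGen C₀.adj v w ∧ ∃ b, C₀.sg (w, b) = (w, b))
    (hpair : Paired C₀ (fun a b =>
      Joinable l c1 eta K (C₀.st a, {C₀.lab a}) (C₀.st b, {C₀.lab b})))
    (hm : 3 * ((K + 3) * (univ.filter fun a => C₀.sg a = a).card) ≤ m) : Ham l := by
  have hset : ∀ Ls : Set (Lb), Ls = ((Ls.toFinset : Finset (Lb)) : Set (Lb)) := by
    intro Ls
    simp
  have hk := H59.BE.core (l := l) (good := fun s t => c1 ≤ mu1 l s t)
    (fun s t h => by rw [mu1_symm]; exact h) (big := bigE l eta) h₀.toE (Wd := Wd)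
    (fun p hp => hWd p hp) (m := m) (K := K) ?_ ?_ hM ?_ ?_ ?_
  · exact hk
  · intro s t Lt
    rw [hset Lt]
    generalize Lt.toFinset = Lt
    have e : (fun y y' => H59.BE.JG l (fun s t => c1 ≤ mu1 l s t) s Set.univ y ∧
        H59.BE.JG l (fun s t => c1 ≤ mu1 l s t) t (Lt : Set (Lb)) y') =
        fun y y' => JG l c1 (s, univ) y ∧ JG l c1 (t, Lt) y' := by
      funext y y'
      rw [JG_univ]
      rfl
    rw [e, bigE_iff]
    exact hp0 _ _
  · intro s Ls t Lt k hk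
    rw [hset Ls, hset Lt]
    generalize Ls.toFinset = Ls
    generalize Lt.toFinset = Lt
    have e : (fun y y' => H59.BE.JG l (fun s t => c1 ≤ mu1 l s t) s (Ls : Set (Lb)) y ∧
        H59.BE.GG l (fun s t => c1 ≤ mu1 l s t) (bigE l eta) t (Lt : Set (Lb)) k y') =
        fun y y' => JG l c1 (s, Ls) y ∧ G l c1 eta (t, Lt) k y' := by
      funext y y'
      rw [← GG_iff]
      rfl
    rw [e, bigE_iff]
    exact hp1 _ _ k hk
  · intro v
    obtain ⟨w, h1, h2⟩ := hr v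
    exact ⟨w, h₀.reach_toE h1, h2⟩
  · obtain ⟨p, hp⟩ := hpair
    refine ⟨p, fun a ha => ?_⟩
    obtain ⟨h1, h2, h3, k, hk, h4⟩ := hp a ha
    refine ⟨h1, h3, h2, k, hk, ?_⟩
    have e : (fun y y' => H59.BE.JG l (fun s t => c1 ≤ mu1 l s t) (C₀.toE.st a)
        {C₀.toE.lab a} y ∧ H59.BE.GG l (fun s t => c1 ≤ mu1 l s t) (bigE l eta)
        (C₀.toE.st (p a)) {C₀.toE.lab (p a)} k y') =
        fun y y' => JG l c1 (C₀.st a, {C₀.lab a}) y ∧
          G l c1 eta (C₀.st (p a), {C₀.lab (p a)}) k y' := by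
      funext y y'
      rw [← GG_iff, ← JG_iff, Finset.coe_singleton, Finset.coe_singleton]
      rfl
    rw [e, bigE_iff]
    exact h4
  · have e : C₀.toE.toks = univ.filter fun a => C₀.sg a = a := by
      ext x
      rw [H59.BE.Conf.mem_toks, Finset.mem_filter]
      exact ⟨fun h => ⟨Finset.mem_univ _, h⟩, fun h => h.2⟩
    rw [e]
    exact hm

end Pool.H90BX.E59
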