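import Pool.Agent.H90.BX.FDef

set_option autoImplicit false
set_option linter.unusedSectionVars false

/-! Block R, the small statements (exceptional set, tables, maximal modes, balance). -/

namespace Pool.H90BX.RA

open Finset
open scoped Classical

variable {V : Type} [Fintype V] [DecidableEq V] {r : ℕ} {l : LS V} {psi : Fin r → Fin r}
  {part : V → Lb → Fin r} {val : Fin r → ℤ} {s : ℝ} {U E : Finset V} {K : Finset (Fin r)}
  {u : V}

theorem vl_neg (h : Vl psi val) : Vl psi (fun A => - val A) where
  inv := h.inv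
  anti := fun A => by rw [h.anti A]
  lo := fun A => by have := h.hi A; omega
  hi := fun A => by have := h.lo A; omega
  uniq := fun A B hA hB => by
    have h1 : val (psi A) = 1 := by rw [h.anti A]; exact hA
    have h2 : val (psi B) = 1 := by rw [h.anti B]; exact hB
    have h3 := h.uniq _ _ h1 h2
    rw [← h.inv A, h3, h.inv]

theorem fc_neg (h : FC l psi part val s U K) : FC l psi part (fun A => - val A) s U K where
  vl := vl_neg h.vl
  bdd := h.bdd
  s0 := h.s0
  s1 := h.s1
  large := h.large
  few := h.few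
  half := h.half
  two := fun v hv => by
    have := h.two v hv
    intro h2
    exact this (neg_inj.mp h2)
  big := h.big
  kcard := h.kcard
  kpsi := h.kpsi
  kcl := fun A hA => by
    rcases h.kcl A hA with h1 | h1
    · exact Or.inl h1
    · exact Or.inr (by simpa using h1)
  kin := h.kin
  nlo := by
    refine h.nhi.trans (le_of_eq ?_)
    congr 2
    ext v
    rw [Finset.mem_filter, Finset.mem_filter]
    constructor
    · rintro ⟨h1, h2⟩
      exact ⟨h1, by rcases h2 with h2 | h2 <;> omega⟩
    · rintro ⟨h1, h2⟩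
      exact ⟨h1, by rcases h2 with h2 | h2 <;> omega⟩
  nhi := by
    refine h.nlo.trans (le_of_eq ?_)
    congr 2
    ext v
    rw [Finset.mem_filter, Finset.mem_filter]
    constructor
    · rintro ⟨h1, h2⟩
      exact ⟨h1, by rcases h2 with h2 | h2 <;> omega⟩
    · rintro ⟨h1, h2⟩
      exact ⟨h1, by rcases h2 with h2 | h2 <;> omega⟩

theorem ec_neg (h : EC l psi part val s U E) : EC l psi part (fun A => - val A) s U E where
  sub := h.sub
  card := h.card
  popp := h.popm
  popm := by
    have e : (fun A => - (fun A => - val A) A) = val := by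
      funext A
      simp
    rw [e]
    exact h.popp

theorem nn_large (h : FC l psi part val s U K) : (10 : ℝ) ^ 12 ≤ nn V := by
  have h1 := h.large
  have h2 := h.s1
  have h3 : 0 ≤ nn V := by
    unfold nn
    positivity
  have h4 : s * nn V ≤ 1 / 10 ^ 9 * nn V := mul_le_mul_of_nonneg_right h2 h3
  nlinarith

/-- existence of the exceptional set -/
theorem exists_EC (h : FC l psi part val s U K) : ∃ E, EC l psi part val s U E := by
  set P : Finset V := univ.filter (fun v => v ∈ U ∧ Pop l psi part val U v) with hP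
  set Q : Finset V := univ.filter (fun v => v ∈ U ∧ Pop l psi part (fun A => - val A) U v) with hQ
  have hsn : 0 ≤ s * nn V := by
    have := h.large
    linarith
  have hbig := h.big
  -- the set of popular vertices outside E
  have hout : ∀ (E : Finset V) (w : Fin r → ℤ) (S : Finset V),
      S = univ.filter (fun v => v ∈ U ∧ Pop l psi part w U v) → (Uᶜ ⊆ E) →
      (S \ E) ⊆ univ.filter (fun v => v ∉ E ∧ Pop l psi part w U v) := by
    intro E w S hS _ v hv
    rw [Finset.mem_sdiff, hS, Finset.mem_filter] at hv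
    rw [Finset.mem_filter]
    exact ⟨Finset.mem_univ _, hv.2, hv.1.2.2⟩
  have hUc : ∀ E : Finset V, Uᶜ ⊆ E → ∀ v, v ∉ E → v ∈ U := by
    intro E hE v hv
    by_contra h1
    exact hv (hE (Finset.mem_compl.mpr h1))
  have hcardU : ∀ A : Finset V, (((Uᶜ ∪ A).card : ℕ) : ℝ) ≤ s * nn V + A.card := by
    intro A
    have h1 : (((Uᶜ ∪ A).card : ℕ) : ℝ) ≤ ((Uᶜ).card : ℝ) + A.card := by
      exact_mod_cast Finset.card_union_le _ _
    linarith
  have hsd : ∀ A B : Finset V, ((A.card : ℕ) : ℝ) - B.card ≤ ((A \ B).card : ℝ) := by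
    intro A B
    have h1 : A.card ≤ (A \ B).card + B.card := by
      have h2 := Finset.card_le_card_sdiff_add_card (s := A) (t := B)
      exact h2
    have h3 : (A.card : ℝ) ≤ ((A \ B).card : ℝ) + B.card := by exact_mod_cast h1
    linarith
  -- sets disjoint from the complement of U
  have hdU : ∀ (S : Finset V) (w : Fin r → ℤ),
      S = univ.filter (fun v => v ∈ U ∧ Pop l psi part w U v) → ∀ A : Finset V,
      S \ (Uᶜ ∪ A) = S \ A := by
    intro S w hS A
    ext v
    rw [Finset.mem_sdiff, Finset.mem_sdiff, Finset.mem_union, Finset.mem_compl, not_or, not_not]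
    constructor
    · rintro ⟨h1, _, h2⟩
      exact ⟨h1, h2⟩
    · rintro ⟨h1, h2⟩
      refine ⟨h1, ?_, h2⟩
      rw [hS, Finset.mem_filter] at h1
      exact h1.2.1
  have hnone : ∀ (E : Finset V) (w : Fin r → ℤ) (S : Finset V),
      S = univ.filter (fun v => v ∈ U ∧ Pop l psi part w U v) → (Uᶜ ⊆ E) → S ⊆ E →
      ∀ v, v ∉ E → ¬ Pop l psi part w U v := by
    intro E w S hS hE hSE v hv hpop
    apply hv
    apply hSE
    rw [hS, Finset.mem_filter]
    exact ⟨Finset.mem_univ _, hUc E hE v hv, hpop⟩
  by_cases hp : (P.card : ℝ) ≤ 300 * s * nn V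
  · by_cases hq : (Q.card : ℝ) ≤ 300 * s * nn V
    · refine ⟨Uᶜ ∪ (P ∪ Q), hUc _ Finset.subset_union_left, ?_, Or.inl ?_, Or.inl ?_⟩
      · have h1 := hcardU (P ∪ Q)
        have h2 : (((P ∪ Q).card : ℕ) : ℝ) ≤ (P.card : ℝ) + Q.card := by
          exact_mod_cast Finset.card_union_le _ _
        linarith
      · exact hnone _ _ P hP Finset.subset_union_left
          (Finset.subset_union_left.trans Finset.subset_union_right)
      · exact hnone _ _ Q hQ Finset.subset_union_left
          (Finset.subset_union_right.trans Finset.subset_union_right)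
    · push Not at hq
      by_cases hp2 : (P.card : ℝ) ≤ 100 * s * nn V
      · refine ⟨Uᶜ ∪ P, hUc _ Finset.subset_union_left, ?_, Or.inl ?_, Or.inr ?_⟩
        · have h1 := hcardU P
          linarith
        · exact hnone _ _ P hP Finset.subset_union_left Finset.subset_union_right
        · have h1 := Finset.card_le_card (hout (Uᶜ ∪ P) _ Q hQ Finset.subset_union_left)
          rw [hdU Q _ hQ] at h1
          have h2 := hsd Q P
          have h3 := (Nat.cast_le (α := ℝ)).mpr h1
          linarith
      · push Not at hp2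
        refine ⟨Uᶜ ∪ ∅, hUc _ Finset.subset_union_left, ?_, Or.inr ?_, Or.inr ?_⟩
        · have h1 := hcardU ∅
          rw [Finset.card_empty] at h1
          push_cast at h1
          linarith
        · have h1 := Finset.card_le_card (hout (Uᶜ ∪ ∅) _ P hP Finset.subset_union_left)
          rw [hdU P _ hP, Finset.sdiff_empty] at h1
          have h3 := (Nat.cast_le (α := ℝ)).mpr h1
          linarith
        · have h1 := Finset.card_le_card (hout (Uᶜ ∪ ∅) _ Q hQ Finset.subset_union_left)
          rw [hdU Q _ hQ, Finset.sdiff_empty] at h1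
          have h3 := (Nat.cast_le (α := ℝ)).mpr h1
          linarith
  · push Not at hp
    by_cases hq2 : (Q.card : ℝ) ≤ 100 * s * nn V
    · refine ⟨Uᶜ ∪ Q, hUc _ Finset.subset_union_left, ?_, Or.inr ?_, Or.inl ?_⟩
      · have h1 := hcardU Q
        linarith
      · have h1 := Finset.card_le_card (hout (Uᶜ ∪ Q) _ P hP Finset.subset_union_left)
        rw [hdU P _ hP] at h1
        have h2 := hsd P Q
        have h3 := (Nat.cast_le (α := ℝ)).mpr h1
        linarith
      · exact hnone _ _ Q hQ Finset.subset_union_left Finset.subset_union_right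
    · push Not at hq2
      refine ⟨Uᶜ ∪ ∅, hUc _ Finset.subset_union_left, ?_, Or.inr ?_, Or.inr ?_⟩
      · have h1 := hcardU ∅
        rw [Finset.card_empty] at h1
        push_cast at h1
        linarith
      · have h1 := Finset.card_le_card (hout (Uᶜ ∪ ∅) _ P hP Finset.subset_union_left)
        rw [hdU P _ hP, Finset.sdiff_empty] at h1
        have h3 := (Nat.cast_le (α := ℝ)).mpr h1
        linarith
      · have h1 := Finset.card_le_card (hout (Uᶜ ∪ ∅) _ Q hQ Finset.subset_union_left)
        rw [hdU Q _ hQ, Finset.sdiff_empty] at h1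
        have h3 := (Nat.cast_le (α := ℝ)).mpr h1
        linarith

/-- the vertices that put `(i, lam u i)` into the table of `u` -/
noncomputable def good (l : LS V) (psi : Fin r → Fin r) (part : V → Lb → Fin r) (E : Finset V)
    (u : V) (i : Lb) (A : Fin r) : Finset V :=
  univ.filter (fun w : V => w ∉ E ∧ w ≠ u ∧ l u w = i ∧
    ∃ k, k ≠ l w u ∧ (k = mx l w ∨ k = md l w) ∧ part w k = psi A)

theorem good_few (hfew : Few l psi part s u) (i : Lb) (E : Finset V) :
    (cnt l u i : ℝ) ≤ ((good l psi part E u i (lam l part u i)).card : ℝ) + E.card +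
      s * nn V := by
  have hsub : cls l u i ⊆ (good l psi part E u i (lam l part u i) ∪ E) ∪
      univ.filter (fun w : V => w ≠ u ∧ ¬ Reg l psi part u w) := by
    intro w hw
    obtain ⟨h1, h2⟩ := mem_cls.1 hw
    by_cases h3 : w ∈ E
    · exact Finset.mem_union_left _ (Finset.mem_union_right _ h3)
    by_cases h4 : Reg l psi part u w
    · refine Finset.mem_union_left _ (Finset.mem_union_left _ ?_)
      unfold good
      rw [Finset.mem_filter]
      refine ⟨Finset.mem_univ _, h3, h1, h2, Rl l w (l w u), Rl_ne l w _, Rl_mem l w _, ?_⟩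
      rw [← h2]
      exact h4
    · refine Finset.mem_union_right _ ?_
      rw [Finset.mem_filter]
      exact ⟨Finset.mem_univ _, h1, h4⟩
  have h1 := Finset.card_le_card hsub
  have h2 := Finset.card_union_le (good l psi part E u i (lam l part u i) ∪ E)
    (univ.filter (fun w : V => w ≠ u ∧ ¬ Reg l psi part u w))
  have h3 := Finset.card_union_le (good l psi part E u i (lam l part u i)) E
  have h4 : cnt l u i ≤ (good l psi part E u i (lam l part u i)).card + E.card +
      (univ.filter (fun w : V => w ≠ u ∧ ¬ Reg l psi part u w)).card := by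
    unfold cnt
    omega
  have h5 : (cnt l u i : ℝ) ≤ ((good l psi part E u i (lam l part u i)).card : ℝ) + E.card +
      (univ.filter (fun w : V => w ≠ u ∧ ¬ Reg l psi part u w)).card := by exact_mod_cast h4
  have h6 : ((univ.filter (fun w : V => w ≠ u ∧ ¬ Reg l psi part u w)).card : ℝ) ≤
      s * nn V := hfew
  linarith

theorem tiny (h : FC l psi part val s U K) : 1001 * s * nn V ≤ nn V / 10 ^ 5 := by
  have h2 := h.s1
  have h1 := nn_large h
  have h4 : s * nn V ≤ 1 / 10 ^ 9 * nn V := mul_le_mul_of_nonneg_right h2 (by linarith)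
  linarith

theorem NN_nn (h : FC l psi part val s U K) : nn V * (1 - 1 / 10 ^ 10) ≤ NN V := by
  have h1 := nn_large h
  rw [nn_eq V] at h1 ⊢
  linarith

theorem good_ge (h : FC l psi part val s U K) {u : V} (hu : u ∈ U) {i : Lb}
    (hi : NN V / 4 ≤ cnt l u i) {E : Finset V} (hE : (E.card : ℝ) ≤ 1000 * s * nn V) :
    nn V / 8000 ≤ ((good l psi part E u i (lam l part u i)).card : ℝ) := by
  have h1 := good_few (h.few u hu) i E
  have h2 := tiny h
  have h3 := NN_nn h
  have h4 := nn_large h
  linarith

theorem act_of_good {E : Finset V} {u : V} {i : Lb} {A : Fin r}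
    (h : nn V / 8000 ≤ ((good l psi part E u i A).card : ℝ)) : Act l psi part u i A := by
  unfold Act
  refine h.trans ?_
  have hsub : good l psi part E u i A ⊆ univ.filter (fun w : V => w ≠ u ∧ l u w = i ∧
    ∃ k, k ≠ l w u ∧ (k = mx l w ∨ k = md l w) ∧ part w k = psi A) := by
    intro w hw
    unfold good at hw
    rw [Finset.mem_filter] at hw ⊢
    exact ⟨hw.1, hw.2.2⟩
  exact_mod_cast Finset.card_le_card hsub

theorem T3_of_half (h : FC l psi part val s U K) {v : V} (hv : v ∈ U) : T3 l v := by
  rcases h.bdd.2 v with h1 | h1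
  · exact h1
  · exfalso
    have h2 := h.half v hv
    rw [T4_cntR h1] at h2
    have h3 := NN_pos h.bdd v
    have h4 := h.s1
    have h5 : s * NN V ≤ 1 / 10 ^ 9 * NN V := mul_le_mul_of_nonneg_right h4 h3.le
    linarith

/-- all vertices outside E are typical -/
theorem typ (h : FC l psi part val s U K) (hE : EC l psi part val s U E) (v : V) (hv : v ∉ E) :
    Typ l psi part v := by
  have hU := hE.sub v hv
  exact ⟨act_of_good (good_ge h hU (mx_ge h.bdd v) hE.card),
    act_of_good (good_ge h hU (md_ge h.bdd v) hE.card), fun _ => T3_of_half h hU⟩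

theorem mem_tab_in {u : V} (hu : u ∈ E) {t : Lb × Fin r} : t ∈ Tab l psi part E u ↔
    nn V / 8000 ≤ ((good l psi part E u t.1 t.2).card : ℝ) := by
  unfold Tab
  rw [if_pos hu, Finset.mem_filter]
  exact ⟨fun h => h.2, fun h => ⟨Finset.mem_univ _, h⟩⟩

theorem mem_tab_out {u : V} (hu : u ∉ E) {t : Lb × Fin r} : t ∈ Tab l psi part E u ↔
    t = (mx l u, lam l part u (mx l u)) ∨ t = (md l u, lam l part u (md l u)) := by
  unfold Tab
  rw [if_neg hu, Finset.mem_insert, Finset.mem_singleton]

/-- table entries act -/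
theorem tab_act (h : FC l psi part val s U K) (hE : EC l psi part val s U E) (u : V)
    (t : Lb × Fin r) (ht : t ∈ Tab l psi part E u) : Act l psi part u t.1 t.2 := by
  by_cases hu : u ∈ E
  · rw [mem_tab_in hu] at ht
    exact act_of_good ht
  · rw [mem_tab_out hu] at ht
    obtain ⟨h1, h2, _⟩ := typ h hE u hu
    rcases ht with rfl | rfl
    · exact h1
    · exact h2

/-- table entries are in K -/
theorem tab_K (h : FC l psi part val s U K) (hE : EC l psi part val s U E) (u : V)
    (t : Lb × Fin r) (ht : t ∈ Tab l psi part E u) : t.2 ∈ K := by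
  by_cases hu : u ∈ E
  · rw [mem_tab_in hu] at ht
    have h1 := nn_large h
    have h2 : (0 : ℝ) < ((good l psi part E u t.1 t.2).card : ℝ) := by linarith
    have h3 : 0 < (good l psi part E u t.1 t.2).card := by exact_mod_cast h2
    obtain ⟨w, hw⟩ := Finset.card_pos.mp h3
    unfold good at hw
    rw [Finset.mem_filter] at hw
    obtain ⟨_, hwE, _, _, k, _, hk, hpk⟩ := hw
    have h4 := h.kin w (hE.sub w hwE)
    rw [lam_mx, lam_md] at h4
    have h5 : psi t.2 ∈ K := by
      rw [← hpk]
      rcases hk with rfl | rfl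
      · exact h4.2
      · exact h4.1
    rw [← h.vl.inv t.2]
    exact h.kpsi _ h5
  · rw [mem_tab_out hu] at ht
    have h4 := h.kin u (hE.sub u hu)
    rcases ht with rfl | rfl
    · exact h4.1
    · exact h4.2

theorem tab_one (h : FC l psi part val s U K) (hE : EC l psi part val s U E) {u : V}
    (hu : u ∈ E) {i : Lb} (hi : NN V / 4 ≤ cnt l u i) : ∃ A, (i, A) ∈ Tab l psi part E u := by
  by_contra hcon
  push Not at hcon
  have h1 : ∀ A, ((good l psi part E u i A).card : ℝ) < nn V / 8000 := by
    intro A
    have := hcon A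
    rw [mem_tab_in hu] at this
    exact not_le.mp this
  have hsub : cls l u i ⊆ (K.biUnion fun A => good l psi part E u i A) ∪ E := by
    intro w hw
    obtain ⟨h2, h3⟩ := mem_cls.1 hw
    by_cases h4 : w ∈ E
    · exact Finset.mem_union_right _ h4
    · refine Finset.mem_union_left _ ?_
      rw [Finset.mem_biUnion]
      have h5 := h.kin w (hE.sub w h4)
      rw [lam_mx, lam_md] at h5
      have h6 : part w (Rl l w (l w u)) ∈ K := by
        rcases Rl_mem l w (l w u) with h7 | h7
        · rw [h7]
          exact h5.2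
        · rw [h7]
          exact h5.1
      refine ⟨psi (part w (Rl l w (l w u))), h.kpsi _ h6, ?_⟩
      unfold good
      rw [Finset.mem_filter]
      exact ⟨Finset.mem_univ _, h4, h2, h3, Rl l w (l w u), Rl_ne l w _, Rl_mem l w _,
        (h.vl.inv _).symm⟩
  have h2 := Finset.card_le_card hsub
  have h3 := Finset.card_union_le (K.biUnion fun A => good l psi part E u i A) E
  have h4 : ((K.biUnion fun A => good l psi part E u i A).card : ℝ) ≤
      ∑ A ∈ K, ((good l psi part E u i A).card : ℝ) := by
    exact_mod_cast Finset.card_biUnion_le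
  have h5 : ∑ A ∈ K, ((good l psi part E u i A).card : ℝ) ≤ ∑ _A ∈ K, nn V / 8000 :=
    Finset.sum_le_sum fun A _ => (h1 A).le
  rw [Finset.sum_const, nsmul_eq_mul] at h5
  have h6 : (K.card : ℝ) ≤ 4 := by exact_mod_cast h.kcard
  have h7 := nn_large h
  have h8 : (K.card : ℝ) * (nn V / 8000) ≤ 4 * (nn V / 8000) :=
    mul_le_mul_of_nonneg_right h6 (by linarith)
  have h9 : (cnt l u i : ℝ) ≤ ((K.biUnion fun A => good l psi part E u i A).card : ℝ) +
      E.card := by
    have : cnt l u i ≤ (K.biUnion fun A => good l psi part E u i A).card + E.card := by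
      unfold cnt
      omega
    exact_mod_cast this
  have h10 := hE.card
  have h11 := tiny h
  have h12 := NN_nn h
  have h13 : 0 ≤ s * nn V := by
    have := h.large
    linarith
  linarith

/-- every table has entries for the labels mx and md -/
theorem tab_two (h : FC l psi part val s U K) (hE : EC l psi part val s U E) (u : V) :
    (∃ A, (mx l u, A) ∈ Tab l psi part E u) ∧ ∃ A, (md l u, A) ∈ Tab l psi part E u := by
  by_cases hu : u ∈ E
  · exact ⟨tab_one h hE hu (mx_ge h.bdd u), tab_one h hE hu (md_ge h.bdd u)⟩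
  · exact ⟨⟨_, (mem_tab_out hu).mpr (Or.inl rfl)⟩, ⟨_, (mem_tab_out hu).mpr (Or.inr rfl)⟩⟩

/-- maximal modes exist -/
theorem exists_max (h : FC l psi part val s U K) (hE : EC l psi part val s U E) (u : V) :
    ∃ t, IsMax val (Tab l psi part E u) t := by
  obtain ⟨⟨A, hA⟩, ⟨B, hB⟩⟩ := tab_two h hE u
  obtain ⟨t1, ht1, hm1⟩ := Finset.exists_max_image (Tab l psi part E u) (fun x => val x.2)
    ⟨_, hA⟩
  have hne : ((Tab l psi part E u).filter fun x => x.1 ≠ t1.1).Nonempty := by
    by_cases h1 : mx l u = t1.1
    · refine ⟨(md l u, B), ?_⟩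
      rw [Finset.mem_filter]
      refine ⟨hB, ?_⟩
      rw [← h1]
      exact (mx_ne_md l u).symm
    · exact ⟨(mx l u, A), Finset.mem_filter.mpr ⟨hA, h1⟩⟩
  obtain ⟨t2, ht2, hm2⟩ := Finset.exists_max_image _ (fun x => val x.2) hne
  rw [Finset.mem_filter] at ht2
  exact ⟨(t1, t2), ht1, ht2.1, fun e => ht2.2 e.symm, hm1,
    fun x hx hx2 => hm2 x (Finset.mem_filter.mpr ⟨hx, hx2⟩)⟩

end Pool.H90BX.RA
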