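import Pool.Agent.H59.BX.RA

set_option autoImplicit false
set_option linter.unusedSectionVars false

/-! Block R: the balance and the lower bound for the total value of the maximal modes. -/

namespace Pool.H90BX.RA

open Finset
open scoped Classical

variable {V : Type} [Fintype V] [DecidableEq V] {r : ℕ} {l : LS V} {psi : Fin r → Fin r}
  {part : V → Lb → Fin r} {val : Fin r → ℤ} {s : ℝ} {U E : Finset V} {K : Finset (Fin r)}

/-- value of the class of the edge vw at v -/
noncomputable def ph (l : LS V) (part : V → Lb → Fin r) (val : Fin r → ℤ) (v w : V) : ℝ :=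
  (val (lam l part v (l v w)) : ℝ)

theorem val_bd (h : Vl psi val) (A : Fin r) : (-1 : ℝ) ≤ (val A : ℝ) ∧ (val A : ℝ) ≤ 1 := by
  constructor
  · exact_mod_cast h.lo A
  · exact_mod_cast h.hi A

/-- value of the default tokens -/
noncomputable def df (l : LS V) (part : V → Lb → Fin r) (val : Fin r → ℤ) (v : V) : ℝ :=
  (val (lam l part v (mx l v)) : ℝ) + val (lam l part v (md l v))

theorem sum_ph (h : FC l psi part val s U K) {v : V} (hv : v ∈ U) :
    |∑ w ∈ univ.erase v, ph l part val v w - NN V / 2 * df l part val v| ≤ s * NN V := by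
  have h1 := sum_label l v (fun i => (val (lam l part v i) : ℝ))
  rw [sum_sort l v] at h1
  have h2 : ∑ w ∈ univ.erase v, ph l part val v w =
      ∑ w ∈ univ.erase v, (fun i => (val (lam l part v i) : ℝ)) (l v w) := rfl
  rw [h2, h1]
  have h3 : lam l part v (mn l v) = lam l part v (md l v) := by
    rw [lam_mn, lam_md]
  have h4 : lam l part v (ml l v) = lam l part v (md l v) := by
    rw [lam_md, lam_of_ne l part v (mx_ne_ml l v).symm]
  simp only [h3, h4]
  unfold df
  set a : ℝ := (val (lam l part v (mx l v)) : ℝ) with ha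
  set b : ℝ := (val (lam l part v (md l v)) : ℝ) with hb
  have h5 := cnt_sortR l v
  have h6 : (cnt l v (mx l v) : ℝ) * a + cnt l v (md l v) * b + cnt l v (mn l v) * b +
      cnt l v (ml l v) * b - NN V / 2 * (a + b) =
      - ((NN V / 2 - cnt l v (mx l v)) * (a - b)) := by
    have h7 : (cnt l v (md l v) : ℝ) = NN V - cnt l v (mx l v) - cnt l v (mn l v) -
      cnt l v (ml l v) := by linarith
    rw [h7]
    ring
  rw [h6, abs_neg, abs_mul]
  have h8 := h.half v hv
  have h9 := two_cntR h.bdd v (mx l v)
  have h10 : |NN V / 2 - (cnt l v (mx l v) : ℝ)| ≤ s * NN V / 2 := by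
    rw [abs_of_nonneg (by linarith)]
    linarith
  have h11 : |a - b| ≤ 2 := by
    have e1 := val_bd h.vl (lam l part v (mx l v))
    have e2 := val_bd h.vl (lam l part v (md l v))
    rw [abs_le]
    constructor <;> linarith
  have h12 : 0 ≤ s * NN V / 2 := le_trans (abs_nonneg _) h10
  calc |NN V / 2 - (cnt l v (mx l v) : ℝ)| * |a - b| ≤ (s * NN V / 2) * 2 :=
        mul_le_mul h10 h11 (abs_nonneg _) h12
    _ = s * NN V := by ring

theorem sum_phU (h : FC l psi part val s U K) {v : V} (hv : v ∈ U) :
    |∑ w ∈ U.erase v, ph l part val v w - NN V / 2 * df l part val v| ≤ 2 * s * nn V := by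
  have h1 := sum_ph h hv
  have h2 : ∑ w ∈ univ.erase v, ph l part val v w =
      ∑ w ∈ U.erase v, ph l part val v w + ∑ w ∈ Uᶜ, ph l part val v w := by
    rw [← Finset.sum_union]
    · refine Finset.sum_congr ?_ fun _ _ => rfl
      ext w
      rw [Finset.mem_union, Finset.mem_erase, Finset.mem_erase, Finset.mem_compl]
      constructor
      · rintro ⟨h3, _⟩
        by_cases h4 : w ∈ U
        · exact Or.inl ⟨h3, h4⟩
        · exact Or.inr h4
      · rintro (⟨h3, _⟩ | h3)
        · exact ⟨h3, Finset.mem_univ _⟩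
        · refine ⟨?_, Finset.mem_univ _⟩
          rintro rfl
          exact h3 hv
    · rw [Finset.disjoint_left]
      intro w h3 h4
      exact (Finset.mem_compl.mp h4) (Finset.mem_erase.mp h3).2
  have h3 : |∑ w ∈ Uᶜ, ph l part val v w| ≤ s * nn V := by
    calc |∑ w ∈ Uᶜ, ph l part val v w| ≤ ∑ w ∈ Uᶜ, |ph l part val v w| :=
          Finset.abs_sum_le_sum_abs _ _
      _ ≤ ∑ _w ∈ Uᶜ, (1 : ℝ) := by
          refine Finset.sum_le_sum fun w _ => ?_
          have := val_bd h.vl (lam l part v (l v w))
          exact abs_le.mpr this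
      _ = ((Uᶜ).card : ℝ) := by
          rw [Finset.sum_const, nsmul_eq_mul, mul_one]
      _ ≤ s * nn V := h.big
  rw [h2] at h1
  have h4 : s * NN V ≤ s * nn V := by
    refine mul_le_mul_of_nonneg_left ?_ h.s0.le
    rw [nn_eq V]
    linarith
  rw [abs_le] at h1 h3 ⊢
  constructor <;> linarith [h1.1, h1.2, h3.1, h3.2]

theorem double_sum (h : FC l psi part val s U K) :
    |∑ v ∈ U, ∑ w ∈ U.erase v, ph l part val v w| ≤ s * nn V * U.card := by
  have h1 : ∑ v ∈ U, ∑ w ∈ U.erase v, ph l part val v w =
      ∑ v ∈ U, ∑ w ∈ U.erase v, ph l part val w v := by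
    rw [Finset.sum_comm' (s := U) (t := fun v => U.erase v) (t' := U) (s' := fun w => U.erase w)]
    intro x y
    rw [Finset.mem_erase, Finset.mem_erase]
    constructor
    · rintro ⟨h1, h2, h3⟩
      exact ⟨⟨h2.symm, h1⟩, h3⟩
    · rintro ⟨⟨h2, h1⟩, h3⟩
      exact ⟨h1, h2.symm, h3⟩
  have h2 : 2 * ∑ v ∈ U, ∑ w ∈ U.erase v, ph l part val v w =
      ∑ v ∈ U, ∑ w ∈ U.erase v, (ph l part val v w + ph l part val w v) := by
    rw [two_mul]
    nth_rewrite 2 [h1]
    rw [← Finset.sum_add_distrib]
    exact Finset.sum_congr rfl fun v _ => Finset.sum_add_distrib.symm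
  have h3 : ∀ v ∈ U, |∑ w ∈ U.erase v, (ph l part val v w + ph l part val w v)| ≤
      2 * (s * nn V) := by
    intro v hv
    calc |∑ w ∈ U.erase v, (ph l part val v w + ph l part val w v)|
        ≤ ∑ w ∈ U.erase v, |ph l part val v w + ph l part val w v| :=
          Finset.abs_sum_le_sum_abs _ _
      _ ≤ ∑ w ∈ U.erase v, (if ¬ Reg l psi part v w then (2 : ℝ) else 0) := by
          refine Finset.sum_le_sum fun w _ => ?_
          by_cases hr : Reg l psi part v w
          · rw [if_neg (not_not.mpr hr)]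
            have e : ph l part val v w + ph l part val w v = 0 := by
              unfold ph
              have e1 : lam l part w (l w v) = psi (lam l part v (l v w)) := hr
              rw [e1, h.vl.anti]
              push_cast
              ring
            rw [e, abs_zero]
          · rw [if_pos hr]
            have e1 := val_bd h.vl (lam l part v (l v w))
            have e2 := val_bd h.vl (lam l part w (l w v))
            unfold ph
            rw [abs_le]
            constructor <;> linarith
      _ = (((U.erase v).filter fun w => ¬ Reg l psi part v w).card : ℝ) * 2 := by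
          rw [← Finset.sum_filter, Finset.sum_const, nsmul_eq_mul]
      _ ≤ (s * nn V) * 2 := by
          refine mul_le_mul_of_nonneg_right ?_ (by norm_num)
          refine le_trans ?_ (h.few v hv)
          have hsub : (U.erase v).filter (fun w => ¬ Reg l psi part v w) ⊆
              univ.filter (fun w : V => w ≠ v ∧ ¬ Reg l psi part v w) := by
            intro w hw
            rw [Finset.mem_filter, Finset.mem_erase] at hw
            rw [Finset.mem_filter]
            exact ⟨Finset.mem_univ _, hw.1.1, hw.2⟩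
          exact_mod_cast Finset.card_le_card hsub
      _ = 2 * (s * nn V) := by ring
  have h4 : |2 * ∑ v ∈ U, ∑ w ∈ U.erase v, ph l part val v w| ≤ 2 * (s * nn V * U.card) := by
    rw [h2]
    calc |∑ v ∈ U, ∑ w ∈ U.erase v, (ph l part val v w + ph l part val w v)|
        ≤ ∑ v ∈ U, |∑ w ∈ U.erase v, (ph l part val v w + ph l part val w v)| :=
          Finset.abs_sum_le_sum_abs _ _
      _ ≤ ∑ _v ∈ U, 2 * (s * nn V) := Finset.sum_le_sum h3
      _ = 2 * (s * nn V * U.card) := by
          rw [Finset.sum_const, nsmul_eq_mul]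
          ring
  rw [abs_mul, abs_of_pos (show (0 : ℝ) < 2 by norm_num)] at h4
  linarith

/-- BALANCE -/
theorem balance (h : FC l psi part val s U K) :
    |∑ v ∈ U, df l part val v| ≤ 61 / 10 * (s * nn V) := by
  have hU : (U.card : ℝ) ≤ nn V := by
    unfold nn
    exact_mod_cast Finset.card_le_univ U
  have hsn : 0 ≤ s * nn V := by
    have := h.large
    linarith
  have hn := nn_large h
  have hN := NN_nn h
  have h1 : |∑ v ∈ U, (∑ w ∈ U.erase v, ph l part val v w - NN V / 2 * df l part val v)| ≤
      2 * s * nn V * nn V := by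
    calc |∑ v ∈ U, (∑ w ∈ U.erase v, ph l part val v w - NN V / 2 * df l part val v)|
        ≤ ∑ v ∈ U, |∑ w ∈ U.erase v, ph l part val v w - NN V / 2 * df l part val v| :=
          Finset.abs_sum_le_sum_abs _ _
      _ ≤ ∑ _v ∈ U, 2 * s * nn V := Finset.sum_le_sum fun v hv => sum_phU h hv
      _ = U.card * (2 * s * nn V) := by rw [Finset.sum_const, nsmul_eq_mul]
      _ ≤ nn V * (2 * s * nn V) := mul_le_mul_of_nonneg_right hU (by linarith)
      _ = 2 * s * nn V * nn V := by ring
  rw [Finset.sum_sub_distrib, ← Finset.mul_sum] at h1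
  have h2 := double_sum h
  have h3 : s * nn V * U.card ≤ s * nn V * nn V := mul_le_mul_of_nonneg_left hU hsn
  have h4 : |NN V / 2 * ∑ v ∈ U, df l part val v| ≤ 3 * (s * nn V) * nn V := by
    rw [abs_le] at h1 h2 ⊢
    constructor <;> linarith [h1.1, h1.2, h2.1, h2.2]
  rw [abs_mul, abs_of_nonneg (show 0 ≤ NN V / 2 by linarith)] at h4
  by_contra hcon
  push Not at hcon
  have h5 : 0 < s * nn V := by
    have := h.large
    linarith
  have h6 : NN V / 2 * (61 / 10 * (s * nn V)) < NN V / 2 * |∑ v ∈ U, df l part val v| :=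
    mul_lt_mul_of_pos_left hcon (by linarith)
  have h7 : nn V * (1 - 1 / 10 ^ 10) / 2 * (61 / 10 * (s * nn V)) ≤
      NN V / 2 * (61 / 10 * (s * nn V)) :=
    mul_le_mul_of_nonneg_right (by linarith) (by linarith)
  have h8 : 0 < s * nn V * nn V := mul_pos h5 (by linarith)
  nlinarith

/-- the maximal modes are at least the default tokens -/
theorem mval_ge (h : FC l psi part val s U K) (hE : EC l psi part val s U E) {u : V}
    (hu : u ∈ U) {t : (Lb × Fin r) × (Lb × Fin r)} (ht : IsMax val (Tab l psi part E u) t) :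
    df l part val u ≤ ((mval val t : ℤ) : ℝ) := by
  have h1 : (mx l u, lam l part u (mx l u)) ∈ Tab l psi part E u := by
    by_cases huE : u ∈ E
    · exact (mem_tab_in huE).mpr (good_ge h hu (mx_ge h.bdd u) hE.card)
    · exact (mem_tab_out huE).mpr (Or.inl rfl)
  have h2 : (md l u, lam l part u (md l u)) ∈ Tab l psi part E u := by
    by_cases huE : u ∈ E
    · exact (mem_tab_in huE).mpr (good_ge h hu (md_ge h.bdd u) hE.card)
    · exact (mem_tab_out huE).mpr (Or.inr rfl)
  have h3 : val (lam l part u (mx l u)) + val (lam l part u (md l u)) ≤ mval val t := by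
    unfold mval
    by_cases h4 : mx l u = t.1.1
    · have h5 := ht.top _ h1
      have h6 := ht.snd _ h2 (by
        show md l u ≠ t.1.1
        rw [← h4]
        exact (mx_ne_md l u).symm)
      simp only at h5 h6
      omega
    · have h5 := ht.top _ h2
      have h6 := ht.snd _ h1 h4
      simp only at h5 h6
      omega
  unfold df
  exact_mod_cast h3

theorem mval_lo (h : FC l psi part val s U K) (t : (Lb × Fin r) × (Lb × Fin r)) :
    (-2 : ℝ) ≤ ((mval val t : ℤ) : ℝ) := by
  have h1 := h.vl.lo t.1.2
  have h2 := h.vl.lo t.2.2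
  have h3 : -2 ≤ mval val t := by
    unfold mval
    omega
  exact_mod_cast h3

/-- lower bound for the total value of the maximal modes -/
theorem W_lower (h : FC l psi part val s U K) (hE : EC l psi part val s U E)
    (M : V → (Lb × Fin r) × (Lb × Fin r)) (hM : ∀ u, IsMax val (Tab l psi part E u) (M u)) :
    - (9 * s * nn V) ≤ ((∑ u, mval val (M u) : ℤ) : ℝ) := by
  push_cast
  have h1 : ∑ u, ((mval val (M u) : ℤ) : ℝ) =
      ∑ u ∈ U, ((mval val (M u) : ℤ) : ℝ) + ∑ u ∈ Uᶜ, ((mval val (M u) : ℤ) : ℝ) :=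
    (Finset.sum_add_sum_compl U _).symm
  have h2 : ∑ u ∈ U, df l part val u ≤ ∑ u ∈ U, ((mval val (M u) : ℤ) : ℝ) :=
    Finset.sum_le_sum fun u hu => mval_ge h hE hu (hM u)
  have h3 : ∑ _u ∈ Uᶜ, (-2 : ℝ) ≤ ∑ u ∈ Uᶜ, ((mval val (M u) : ℤ) : ℝ) :=
    Finset.sum_le_sum fun u _ => mval_lo h (M u)
  rw [Finset.sum_const, nsmul_eq_mul] at h3
  have h4 := balance h
  have h5 := h.big
  have h6 : 0 ≤ s * nn V := by
    have := h.large
    linarith
  rw [abs_le] at h4
  rw [h1]
  linarith [h4.1]

end Pool.H90BX.RA
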